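import Pool.Agent.helper89.Zono.Family
import Pool.Agent.helper50.Zono.Trans2

/-!
# Assembly: exact values and two-sided bounds
-/

open scoped RealInnerProductSpace

set_option linter.unusedSectionVars false

namespace Pool.Agent.helper89.Zono

open Pool.Agent.helper50.Zono

/-- (C1): `p₃ ≥ N + r - 2` for every vertex of multiplicity `r` -/
def C1 : Prop := ∀ (N : ℕ) (a : Fin N → E3), IsArr a → ∀ q ∈ planes a Finset.univ,
  2 * (N + mult a Finset.univ q) ≤ tri a + 4

theorem three_le {N : ℕ} {a : Fin N → E3} (h : IsArr a) : 3 ≤ N := by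
  have h1 := finrank_range_le_card (R := ℝ) a
  rw [Set.finrank, h.span, finrank_top, Fintype.card_fin] at h1
  simpa using h1

theorem m_le {n k N : ℕ} (a : Fin N → E3) (ha : IsArr a) (hn : (topes a).card = n)
    (hk : tri a ≤ k) : m n ≤ k := by
  rw [m_eq]
  have hmem : tri a ∈ {k | ∃ (N : ℕ) (a : Fin N → E3), IsArr a ∧ (topes a).card = n ∧ tri a = k} :=
    ⟨N, a, ha, hn, rfl⟩
  exact (Nat.sInf_le hmem).trans hk

/-- the family gives upper bounds -/
theorem upper {N D j : ℕ} (hj : 1 ≤ j) (h1 : j * (j + 1) ≤ 2 * D) (h2 : 2 * D + 4 ≤ N + j * j) :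
    m (N * (N - 1) + 2 - 2 * D) ≤ 2 * (N + j) := by
  obtain ⟨t, ht⟩ := Nat.even_mul_succ_self j
  have h3 : j * (j + 1) = j * j + j := by ring
  obtain ⟨c, hc⟩ : ∃ c, c = D - t := ⟨_, rfl⟩
  obtain ⟨q, hq⟩ : ∃ q, q = N - (2 * c + j + 4) := ⟨_, rfl⟩
  have hN : N = 2 * c + j + 4 + q := by omega
  obtain ⟨a, ha, hcard, htri⟩ := family c j q hj
  have h4 : (topes a).card = N * (N - 1) + 2 - 2 * D := by
    have e1 : N - 1 = 2 * c + j + 3 + q := by omega
    rw [e1, hN]
    have e2 : j * (j + 1) + 2 * c = 2 * D := by omega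
    omega
  refine m_le a ha h4 ?_
  rw [hN]
  exact htri

theorem upper0 {N : ℕ} (hN : 4 ≤ N) : m (N * (N - 1) + 2) ≤ 2 * N := by
  obtain ⟨q, rfl⟩ : ∃ q, N = 4 + q := ⟨N - 4, by omega⟩
  obtain ⟨a, ha, hcard, htri⟩ := family0 q
  refine m_le a ha ?_ htri
  have e1 : 4 + q - 1 = 3 + q := by omega
  rw [hcard, e1]; ring

section lower

variable {N : ℕ} {a : Fin N → E3}

/-- `∑ (mult - 1) (mult - 2)`: twice the defect -/
noncomputable def sD (a : Fin N → E3) : ℕ :=
  ∑ q ∈ planes a Finset.univ, (mult a Finset.univ q - 1) * (mult a Finset.univ q - 2)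

theorem card_add_sD (h : IsArr a) : (topes a).card + sD a = 2 + N * (N - 1) := by
  have hc : 2 ≤ Fintype.card (Fin N) := by
    have := three_le h; rw [Fintype.card_fin]; omega
  have h1 := card_topes h.indep hc
  have h2 := sum_choose_two (a := a) h.indep
  rw [Fintype.card_fin] at h2
  rw [h1, ← h2, mul_add, mul_one, add_assoc, Finset.mul_sum, sD, ← Finset.sum_add_distrib]
  congr 1
  refine Finset.sum_congr rfl fun q hq => ?_
  obtain ⟨r, hr⟩ : ∃ r, mult a Finset.univ q = r + 2 :=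
    ⟨_, (Nat.sub_add_cancel (two_le_mult hq)).symm⟩
  rw [hr]
  have e1 : r + 2 - 1 = r + 1 := by omega
  have e2 : r + 2 - 2 = r := by omega
  rw [e1, e2]; ring

theorem euler_le (h : IsArr a) : 8 + 4 * sR a Finset.univ ≤ tri a := by
  have hc : 2 ≤ Fintype.card (Fin N) := by
    have := three_le h; rw [Fintype.card_fin]; omega
  have h1 := tri_euler h hc
  have h2 : ∑ q ∈ planes a Finset.univ, ((mult a Finset.univ q : ℤ) - 2) =
      (sR a Finset.univ : ℤ) := by
    unfold sR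
    push_cast
    refine Finset.sum_congr rfl fun q hq => ?_
    have := two_le_mult hq
    push_cast [Nat.cast_sub this]
    ring
  have h3 : (0 : ℤ) ≤ ∑ S ∈ topes a, (((walls a S).card - 4 : ℕ) : ℤ) :=
    Finset.sum_nonneg fun _ _ => by positivity
  rw [h2] at h1
  zify
  linarith

theorem sD_le {M : ℕ} (hM : ∀ q ∈ planes a Finset.univ, mult a Finset.univ q ≤ M + 2) :
    sD a ≤ (M + 1) * sR a Finset.univ := by
  unfold sD sR
  rw [Finset.mul_sum]
  refine Finset.sum_le_sum fun q hq => ?_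
  have h1 := hM q hq
  exact Nat.mul_le_mul_right _ (by omega)

theorem exists_three (h : 1 ≤ sD a) : ∃ q ∈ planes a Finset.univ, 3 ≤ mult a Finset.univ q := by
  by_contra hcon
  push Not at hcon
  have : sD a = 0 := Finset.sum_eq_zero fun q hq => by
    have := hcon q hq
    have e : mult a Finset.univ q - 2 = 0 := by omega
    rw [e, mul_zero]
  omega

theorem two_N_le (hC : C1) (h : IsArr a) : 2 * N ≤ tri a := by
  have h3 := three_le h
  have hq : pl a ⟨0, by omega⟩ ⟨1, by omega⟩ ∈ planes a Finset.univ :=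
    mem_planes.2 ⟨_, Finset.mem_univ _, _, Finset.mem_univ _, by simp, rfl⟩
  have h1 := hC N a h _ hq
  have h2 := two_le_mult hq
  omega

/-- if `tri a < 2 (N + M + 1)` then all multiplicities are at most `M + 2` -/
theorem mult_le (hC : C1) (h : IsArr a) {M : ℕ} (ht : tri a < 2 * (N + M + 1)) :
    ∀ q ∈ planes a Finset.univ, mult a Finset.univ q ≤ M + 2 := by
  intro q hq
  have := hC N a h q hq
  omega

/-- the lower bound for a given number of planes -/
theorem lower_core (hC : C1) (h : IsArr a) {M : ℕ} (ht : tri a < 2 * (N + M + 1)) :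
    8 + 4 * sR a Finset.univ ≤ tri a ∧ sD a ≤ (M + 1) * sR a Finset.univ :=
  ⟨euler_le h, sD_le (mult_le hC h ht)⟩

end lower

/-- the number of planes is at least `N` -/
theorem N_le {N D N' c : ℕ} (hD : D + 2 ≤ N) (h : N * (N - 1) + 2 - 2 * D + c = 2 + N' * (N' - 1)) :
    N ≤ N' := by
  by_contra hlt
  push Not at hlt
  obtain ⟨k, rfl⟩ : ∃ k, N = k + 1 := ⟨N - 1, by omega⟩
  have h1 : N' * (N' - 1) ≤ k * (k - 1) := Nat.mul_le_mul (by omega) (by omega)
  obtain ⟨k', rfl⟩ : ∃ k', k = k' + 1 := ⟨k - 1, by omega⟩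
  have e1 : k' + 1 - 1 = k' := by omega
  have e2 : k' + 1 + 1 - 1 = k' + 1 := by omega
  rw [e1] at h1
  rw [e2] at h
  have e3 : (k' + 1 + 1) * (k' + 1) = (k' + 1) * k' + 2 * (k' + 1) := by ring
  omega

theorem sq_lt {N N' : ℕ} (hN : 1 ≤ N) (h : N < N') : N * (N - 1) + 2 * N ≤ N' * (N' - 1) := by
  have h1 : (N + 1) * N ≤ N' * (N' - 1) := Nat.mul_le_mul (by omega) (by omega)
  obtain ⟨k, rfl⟩ : ∃ k, N = k + 1 := ⟨N - 1, by omega⟩
  have e1 : k + 1 - 1 = k := by omega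
  rw [e1]
  have e2 : (k + 1 + 1) * (k + 1) = (k + 1) * k + 2 * (k + 1) := by ring
  omega

/-- lower bounds from lower bounds for arrangements -/
theorem le_m {n k : ℕ} (hne : ∃ (N : ℕ) (a : Fin N → E3), IsArr a ∧ (topes a).card = n)
    (h : ∀ (N : ℕ) (a : Fin N → E3), IsArr a → (topes a).card = n → k ≤ tri a) : k ≤ m n := by
  rw [m_eq]
  obtain ⟨N₀, a₀, ha₀, hn₀⟩ := hne
  have hne' : {k | ∃ (N : ℕ) (a : Fin N → E3), IsArr a ∧ (topes a).card = n ∧ tri a = k}.Nonempty :=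
    ⟨tri a₀, N₀, a₀, ha₀, hn₀, rfl⟩
  obtain ⟨N, a, ha, hn, hk⟩ := Nat.sInf_mem hne'
  rw [← hk]
  exact h N a ha hn

/-- the family shows that the class is not empty -/
theorem exists_arr {N D j : ℕ} (hj : 1 ≤ j) (h1 : j * (j + 1) ≤ 2 * D)
    (h2 : 2 * D + 4 ≤ N + j * j) :
    ∃ (N' : ℕ) (a : Fin N' → E3), IsArr a ∧ (topes a).card = N * (N - 1) + 2 - 2 * D := by
  obtain ⟨t, ht⟩ := Nat.even_mul_succ_self j
  have h3 : j * (j + 1) = j * j + j := by ring
  obtain ⟨c, hc⟩ : ∃ c, c = D - t := ⟨_, rfl⟩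
  obtain ⟨q, hq⟩ : ∃ q, q = N - (2 * c + j + 4) := ⟨_, rfl⟩
  have hN : N = 2 * c + j + 4 + q := by omega
  obtain ⟨a, ha, hcard, -⟩ := family c j q hj
  refine ⟨_, a, ha, ?_⟩
  have e1 : N - 1 = 2 * c + j + 3 + q := by omega
  rw [e1, hN]
  have e2 : j * (j + 1) + 2 * c = 2 * D := by omega
  omega

/-- the number of planes and the defect of an arrangement with `N (N - 1) + 2 - 2 D` cells -/
theorem cases_N {N D N' : ℕ} {a : Fin N' → E3} (ha : IsArr a) (hD : D + 2 ≤ N)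
    (hn : (topes a).card = N * (N - 1) + 2 - 2 * D) :
    (N' = N ∧ sD a = 2 * D) ∨ (N < N' ∧ 2 * N + 2 * D ≤ sD a) := by
  have h1 := card_add_sD ha
  rw [hn] at h1
  have h2 := N_le hD h1
  have h3 : 2 * D ≤ N * (N - 1) + 2 := by
    obtain ⟨k, rfl⟩ : ∃ k, N = k + 2 := ⟨N - 2, by omega⟩
    have e : k + 2 - 1 = k + 1 := by omega
    rw [e]
    have : (k + 2) * (k + 1) = k * k + 3 * k + 2 := by ring
    nlinarith [Nat.zero_le (k * k)]
  rcases Nat.eq_or_lt_of_le h2 with h4 | h4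
  · left
    subst h4
    exact ⟨rfl, by omega⟩
  · right
    have h5 := sq_lt (by omega : 1 ≤ N) h4
    exact ⟨h4, by omega⟩

theorem lower_zero (hC : C1) {N : ℕ} (hN : 4 ≤ N) : 2 * N ≤ m (N * (N - 1) + 2) := by
  refine le_m ?_ ?_
  · obtain ⟨q, rfl⟩ : ∃ q, N = 4 + q := ⟨N - 4, by omega⟩
    obtain ⟨a, ha, hcard, -⟩ := family0 q
    refine ⟨_, a, ha, ?_⟩
    have e1 : 4 + q - 1 = 3 + q := by omega
    rw [hcard, e1]; ring
  · intro N' a ha hn
    have h1 := two_N_le hC ha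
    have h2 : N ≤ N' := N_le (D := 0) (c := sD a) (by omega) (by
      have := card_add_sD ha
      rw [hn] at this
      omega)
    omega

/-- at least one multiple point -/
theorem lower_one (hC : C1) {N D N' : ℕ} {a : Fin N' → E3} (ha : IsArr a) (hD1 : 1 ≤ D)
    (hD : D + 2 ≤ N) (hn : (topes a).card = N * (N - 1) + 2 - 2 * D) : 2 * N + 2 ≤ tri a := by
  rcases cases_N ha hD hn with ⟨rfl, h⟩ | ⟨h1, h2⟩
  · obtain ⟨q, hq, h3⟩ := exists_three (a := a) (by omega)
    have := hC _ a ha q hq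
    omega
  · have := two_N_le hC ha
    omega

theorem lower_two (hC : C1) {N D N' : ℕ} {a : Fin N' → E3} (ha : IsArr a) (hD1 : N < 2 * D + 3)
    (hD : D + 2 ≤ N) (hD0 : 1 ≤ D) (hn : (topes a).card = N * (N - 1) + 2 - 2 * D) :
    2 * N + 4 ≤ tri a := by
  by_contra hlt
  push Not at hlt
  rcases cases_N ha hD hn with ⟨rfl, h⟩ | ⟨h1, h2⟩
  · obtain ⟨h3, h4⟩ := lower_core hC ha (M := 1) (by omega)
    rw [h] at h4
    omega
  · obtain ⟨q, hq, h3⟩ := exists_three (a := a) (by omega)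
    have := hC _ a ha q hq
    omega

theorem lower_three (hC : C1) {N D N' : ℕ} {a : Fin N' → E3} (ha : IsArr a)
    (hD1 : 3 * N < 4 * D + 6) (hD : D + 2 ≤ N) (_hD0 : 1 ≤ D)
    (hn : (topes a).card = N * (N - 1) + 2 - 2 * D) : 2 * N + 6 ≤ tri a := by
  by_contra hlt
  push Not at hlt
  rcases cases_N ha hD hn with ⟨rfl, h⟩ | ⟨h1, h2⟩
  · obtain ⟨h3, h4⟩ := lower_core hC ha (M := 2) (by omega)
    rw [h] at h4
    omega
  · -- here the multiplicities are at most 3
    have hM : tri a < 2 * (N' + 1 + 1) := by omega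
    obtain ⟨h3, h4⟩ := lower_core hC ha hM
    omega

/-- **Exact values**, `D = 0`. -/
theorem exact_zero (hC : C1) {N : ℕ} (hN : 4 ≤ N) : m (N * (N - 1) + 2) = 2 * N :=
  le_antisymm (upper0 hN) (lower_zero hC hN)

/-- **Exact values**, `1 ≤ D ≤ (N - 3) / 2`. -/
theorem exact_one (hC : C1) {N D : ℕ} (hD : 1 ≤ D) (hN : 2 * D + 3 ≤ N) :
    m (N * (N - 1) + 2 - 2 * D) = 2 * N + 2 := by
  refine le_antisymm ((upper (j := 1) le_rfl (by omega) (by omega)).trans (by omega)) ?_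
  refine le_m (exists_arr (j := 1) le_rfl (by omega) (by omega)) fun N' a ha hn => ?_
  exact lower_one hC ha hD (by omega) hn

/-- **Exact values**, `(N - 3) / 2 < D ≤ N / 2`. -/
theorem exact_two (hC : C1) {N D : ℕ} (hD : 3 ≤ D) (hN : 2 * D ≤ N) (hN' : N < 2 * D + 3) :
    m (N * (N - 1) + 2 - 2 * D) = 2 * N + 4 := by
  refine le_antisymm ((upper (j := 2) (by omega) (by omega) (by omega)).trans (by omega)) ?_
  refine le_m (exists_arr (j := 2) (by omega) (by omega) (by omega)) fun N' a ha hn => ?_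
  exact lower_two hC ha hN' (by omega) (by omega) hn

end Pool.Agent.helper89.Zono
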