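import Pool.Agent.helper89.Zono.Cnt

/-!
# The base of the family: a pencil of `j + 2` lines and two more lines
-/

open scoped RealInnerProductSpace

set_option linter.unusedSectionVars false

namespace Pool.Agent.helper89.Zono

open Pool.Agent.helper50.Zono

/-- the base arrangement -/
noncomputable def base (j : ℕ) : Fin (j + 1) ⊕ Fin 3 → E3 :=
  Sum.elim (fun k => !₂[1, -(2 * (k : ℕ) : ℝ), 0])
    ![!₂[0, 1, 0], !₂[0, 0, 1], !₂[1, -1, -1]]

variable {j : ℕ}

theorem bk0 (k : Fin (j + 1)) : base j (Sum.inl k) 0 = 1 := by simp [base]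
theorem bk1 (k : Fin (j + 1)) : base j (Sum.inl k) 1 = -(2 * (k : ℕ)) := by simp [base]
theorem bk2 (k : Fin (j + 1)) : base j (Sum.inl k) 2 = 0 := by simp [base]
theorem bl0 : base j (Sum.inr 0) 0 = 0 := by simp [base]
theorem bl1 : base j (Sum.inr 0) 1 = 1 := by simp [base]
theorem bl2 : base j (Sum.inr 0) 2 = 0 := by simp [base]
theorem bd0 : base j (Sum.inr 1) 0 = 0 := by simp [base]
theorem bd1 : base j (Sum.inr 1) 1 = 0 := by simp [base]
theorem bd2 : base j (Sum.inr 1) 2 = 1 := by simp [base]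
theorem bb0 : base j (Sum.inr 2) 0 = 1 := by simp [base]
theorem bb1 : base j (Sum.inr 2) 1 = -1 := by simp [base]
theorem bb2 : base j (Sum.inr 2) 2 = -1 := by simp [base]

theorem base_inv (j : ℕ) : Inv (base j) (Sum.inr 0) (Sum.inr 1) := by
  refine ⟨by simp, bl0, bl1, bl2, bd0, bd1, bd2, ?_, ⟨Sum.inr 2, by simp, by simp⟩⟩
  have hkk : ∀ k k' : Fin (j + 1), k ≠ k' →
      base j (Sum.inl k) 0 * base j (Sum.inl k') 1 - base j (Sum.inl k) 1 * base j (Sum.inl k') 0
        ≠ 0 := by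
    intro k k' hkk'
    rw [bk0, bk1, bk0, bk1]
    intro h0
    apply hkk'
    have : ((k : ℕ) : ℝ) = ((k' : ℕ) : ℝ) := by linarith
    exact Fin.ext (by exact_mod_cast this)
  have hkl : ∀ k : Fin (j + 1),
      base j (Sum.inl k) 0 * base j (Sum.inr 0) 1 - base j (Sum.inl k) 1 * base j (Sum.inr 0) 0
        ≠ 0 := by
    intro k; rw [bk0, bl1, bl0]; norm_num
  have hkb : ∀ k : Fin (j + 1),
      base j (Sum.inl k) 0 * base j (Sum.inr 2) 1 - base j (Sum.inl k) 1 * base j (Sum.inr 2) 0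
        ≠ 0 := by
    intro k; rw [bk0, bk1, bb1, bb0]
    intro h0
    have h1 : (2 * (k : ℕ) : ℝ) = 1 := by linarith
    have h2 : 2 * (k : ℕ) = 1 := by exact_mod_cast h1
    omega
  have hlb : base j (Sum.inr 0) 0 * base j (Sum.inr 2) 1 -
      base j (Sum.inr 0) 1 * base j (Sum.inr 2) 0 ≠ 0 := by
    rw [bl0, bl1, bb0]; norm_num
  have anti : ∀ u v : E3, u 0 * v 1 - u 1 * v 0 ≠ 0 → v 0 * u 1 - v 1 * u 0 ≠ 0 := by
    intro u v h1 h0
    exact h1 (by linear_combination -h0)
  rintro (i | i) (i' | i') h1 h2 h3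
  · exact hkk i i' (by simpa using h3)
  · fin_cases i'
    · exact hkl i
    · exact absurd rfl h2
    · exact hkb i
  · fin_cases i
    · exact anti _ _ (hkl i')
    · exact absurd rfl h1
    · exact anti _ _ (hkb i')
  · fin_cases i <;> fin_cases i'
    · exact absurd rfl h3
    · exact absurd rfl h2
    · exact hlb
    · exact absurd rfl h1
    · exact absurd rfl h1
    · exact absurd rfl h1
    · exact anti _ _ hlb
    · exact absurd rfl h2
    · exact absurd rfl h3

/-- at most two walls in a pencil -/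
theorem Inv.pencil {ι : Type*} {a : ι → E3} {l d : ι} (h : Inv a l d) {x : E3} {i1 i2 i3 : ι}
    (h1 : i1 ≠ d) (h2 : i2 ≠ d) (h3 : i3 ≠ d) (h12 : i1 ≠ i2) (h13 : i1 ≠ i3) (h23 : i2 ≠ i3)
    (z1 : a i1 2 = 0) (z2 : a i2 2 = 0) (z3 : a i3 2 = 0)
    (w1 : i1 ∈ Wl a x) (w2 : i2 ∈ Wl a x) (w3 : i3 ∈ Wl a x) : False := by
  obtain ⟨y1, f1⟩ := w1
  obtain ⟨y2, f2⟩ := w2
  obtain ⟨y3, f3⟩ := w3
  have rel : ∀ z : E3,
      (a i2 0 * a i3 1 - a i2 1 * a i3 0) * ev (a i1) z +
      (-(a i1 0 * a i3 1 - a i1 1 * a i3 0)) * ev (a i2) z +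
      (a i1 0 * a i2 1 - a i1 1 * a i2 0) * ev (a i3) z = 0 := by
    intro z
    rw [ev, ev, ev, z1, z2, z3]; ring
  exact three_dep (h.minor i2 i3 h2 h3 h23) (neg_ne_zero.2 (h.minor i1 i3 h1 h3 h13))
    (h.minor i1 i2 h1 h2 h12) (rel x) (rel y1) (rel y2) (rel y3)
    f1.1 (f1.2 i2 h12.symm) (f1.2 i3 h13.symm)
    (f2.2 i1 h12) f2.1 (f2.2 i3 h23.symm)
    (f3.2 i1 h13) (f3.2 i2 h23) f3.1

theorem base_four (j : ℕ) : Four (base j) := by
  intro x hx
  have h := base_inv j
  have hcard : ({i | i ∈ Wl (base j) x ∧ i ≠ Sum.inr 1 ∧ base j i 2 = 0} : Set _).ncard ≤ 2 := by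
    by_contra hlt
    push Not at hlt
    obtain ⟨i1, i2, i3, m1, m2, m3, h12, h13, h23⟩ :=
      (Set.two_lt_ncard_iff (Set.toFinite _)).1 hlt
    exact h.pencil m1.2.1 m2.2.1 m3.2.1 h12 h13 h23 m1.2.2 m2.2.2 m3.2.2 m1.1 m2.1 m3.1
  have hsub : Wl (base j) x ⊆ {i | i ∈ Wl (base j) x ∧ i ≠ Sum.inr 1 ∧ base j i 2 = 0} ∪
      {Sum.inr 1, Sum.inr 2} := by
    rintro (k | i) hk
    · left; exact ⟨hk, by simp, bk2 k⟩
    · fin_cases i
      · left; exact ⟨hk, by simp, bl2⟩
      · right; simp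
      · right; simp
  refine (Set.ncard_le_ncard hsub (Set.toFinite _)).trans ?_
  refine (Set.ncard_union_le _ _).trans ?_
  have e2 := Set.ncard_insert_le (Sum.inr 1) ({Sum.inr 2} : Set (Fin (j + 1) ⊕ Fin 3))
  rw [Set.ncard_singleton] at e2
  omega

theorem ev_bk (k : Fin (j + 1)) (x : E3) :
    ev (base j (Sum.inl k)) x = x 0 - 2 * (k : ℕ) * x 1 := by
  rw [ev, bk0, bk1, bk2]; ring

theorem ev_bl (x : E3) : ev (base j (Sum.inr 0)) x = x 1 := (base_inv j).ev_l x

theorem ev_bd (x : E3) : ev (base j (Sum.inr 1)) x = x 2 := (base_inv j).ev_d x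

theorem ev_bb (x : E3) : ev (base j (Sum.inr 2)) x = x 0 - x 1 - x 2 := by
  rw [ev, bb0, bb1, bb2]; ring

theorem base_des1 (j : ℕ) : Des (base j) (Sum.inr 0) (Sum.inr 1) (-1) 1 := by
  intro x hx hsp hy hz
  have g0 := hsp (Sum.inl 0) (by simp) (by simp)
  have gb := hsp (Sum.inr 2) (by simp) (by simp)
  rw [bk0, ev_bk] at g0
  rw [bb0, ev_bb] at gb
  simp only [Fin.val_zero, Nat.cast_zero] at g0
  refine ncard_three (a := Sum.inr 0) (b := Sum.inr 1) (c := Sum.inl 0) ?_
  rintro (k | i) ⟨y, hf⟩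
  · right; right
    rw [Set.mem_singleton_iff]
    by_contra hk
    have hk' : (Sum.inl 0 : Fin (j + 1) ⊕ Fin 3) ≠ Sum.inl k := fun h => hk h.symm
    have e0 := hf.2 _ hk'
    have el := hf.2 (Sum.inr 0) (by simp)
    have ek := hf.1
    have gk := hsp (Sum.inl k) (by simp) (by simp)
    rw [bk0] at gk
    rw [ev_bk, ev_bk] at e0 ek
    rw [ev_bk] at gk
    rw [ev_bl, ev_bl] at el
    simp only [Fin.val_zero, Nat.cast_zero] at e0
    have y1 : 0 < y 1 := by nlinarith
    have y0 : y 0 < 0 := by nlinarith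
    have yk : 0 < y 0 - 2 * (k : ℕ) * y 1 := by nlinarith
    have : (0 : ℝ) ≤ 2 * (k : ℕ) * y 1 := by positivity
    linarith
  · fin_cases i
    · left; rfl
    · right; left; rfl
    · exfalso
      have e0 := hf.2 (Sum.inl 0) (by simp)
      have el := hf.2 (Sum.inr 0) (by simp)
      have ed := hf.2 (Sum.inr 1) (by simp)
      have eb := hf.1
      have e1 : ev (base j (Sum.inr 2)) x * ev (base j (Sum.inr 2)) y < 0 := eb
      rw [ev_bb, ev_bb] at e1
      rw [ev_bk, ev_bk] at e0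
      rw [ev_bl, ev_bl] at el
      rw [ev_bd, ev_bd] at ed
      simp only [Fin.val_zero, Nat.cast_zero] at e0
      have y1 : 0 < y 1 := by nlinarith
      have y0 : y 0 < 0 := by nlinarith
      have y2 : 0 < y 2 := by nlinarith
      have yb : 0 < y 0 - y 1 - y 2 := by nlinarith
      linarith

theorem base_des2 (j : ℕ) (hj : 1 ≤ j) : Des (base j) (Sum.inr 0) (Sum.inr 1) (-1) (-1) := by
  intro x hx hsp hy hz
  have hval : ((Fin.last j : Fin (j + 1)) : ℕ) = j := Fin.val_last j
  have g0 := hsp (Sum.inl (Fin.last j)) (by simp) (by simp)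
  have gb := hsp (Sum.inr 2) (by simp) (by simp)
  rw [bk0, ev_bk, hval] at g0
  rw [bb0, ev_bb] at gb
  have hj1 : (1 : ℝ) ≤ j := by exact_mod_cast hj
  refine ncard_three (a := Sum.inr 0) (b := Sum.inr 1) (c := Sum.inl (Fin.last j)) ?_
  rintro (k | i) ⟨y, hf⟩
  · right; right
    rw [Set.mem_singleton_iff]
    by_contra hk
    have hk' : (Sum.inl (Fin.last j) : Fin (j + 1) ⊕ Fin 3) ≠ Sum.inl k := fun h => hk h.symm
    have e0 := hf.2 _ hk'
    have el := hf.2 (Sum.inr 0) (by simp)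
    have ek := hf.1
    have gk := hsp (Sum.inl k) (by simp) (by simp)
    rw [bk0] at gk
    rw [ev_bk, ev_bk] at e0 ek
    rw [hval] at e0
    rw [ev_bk] at gk
    rw [ev_bl, ev_bl] at el
    have hkj : (k : ℕ) < j := by
      have h1 : (k : ℕ) ≠ j := fun h => hk (by rw [Sum.inl.injEq]; exact Fin.ext (by rw [hval, h]))
      have := k.2
      omega
    have hkj' : ((k : ℕ) : ℝ) < j := by exact_mod_cast hkj
    have y1 : y 1 < 0 := by nlinarith
    have y0 : y 0 - 2 * j * y 1 < 0 := by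
      by_contra h9
      push Not at h9
      nlinarith
    have yk : 0 < y 0 - 2 * (k : ℕ) * y 1 := by
      by_contra h9
      push Not at h9
      nlinarith
    nlinarith
  · fin_cases i
    · left; rfl
    · right; left; rfl
    · exfalso
      have e0 := hf.2 (Sum.inl (Fin.last j)) (by simp)
      have el := hf.2 (Sum.inr 0) (by simp)
      have ed := hf.2 (Sum.inr 1) (by simp)
      have eb := hf.1
      have e1 : ev (base j (Sum.inr 2)) x * ev (base j (Sum.inr 2)) y < 0 := eb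
      rw [ev_bb, ev_bb] at e1
      rw [ev_bk, ev_bk, hval] at e0
      rw [ev_bl, ev_bl] at el
      rw [ev_bd, ev_bd] at ed
      have y1 : y 1 < 0 := by nlinarith
      have y0 : y 0 - 2 * j * y 1 < 0 := by
        by_contra h9
        push Not at h9
        nlinarith
      have y2 : 0 < y 2 := by nlinarith
      have yb : 0 < y 0 - y 1 - y 2 := by
        by_contra h9
        push Not at h9
        nlinarith
      nlinarith

theorem base_count (j : ℕ) :
    sW (base j) Finset.univ = 3 * j + 6 ∧ sR (base j) Finset.univ = j := by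
  classical
  have h := base_inv j
  have hpi := h.pi
  set P : Finset (Fin (j + 1) ⊕ Fin 3) :=
    insert (Sum.inr 0) (Finset.univ.map Function.Embedding.inl) with hP
  have hmemP : ∀ i, i ∈ P ↔ i ≠ Sum.inr 1 ∧ i ≠ Sum.inr 2 := by
    intro i
    rw [hP, Finset.mem_insert, Finset.mem_map]
    rcases i with i | i
    · simp
    · fin_cases i <;> simp
  have hPz : ∀ i ∈ P, base j i 2 = 0 := by
    intro i hi
    rw [hmemP] at hi
    rcases i with i | i
    · exact bk2 i
    · fin_cases i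
      · exact bl2
      · exact absurd rfl hi.1
      · exact absurd rfl hi.2
  have hcP : P.card = j + 2 := by
    rw [hP, Finset.card_insert_of_notMem, Finset.card_map, Finset.card_univ, Fintype.card_fin]
    simp
  set q0 := pl (base j) (Sum.inr 0) (Sum.inl 0) with hq0
  have hPq : ∀ i ∈ P, base j i ∈ q0 := by
    intro i hi
    rcases i with i | i
    · rw [hq0, pl, Submodule.mem_span_pair]
      refine ⟨-(2 * (i : ℕ)), 1, ?_⟩
      ext k
      fin_cases k <;> simp [base]
    · rw [hmemP] at hi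
      fin_cases i
      · exact mem_pl_left _ _ _
      · exact absurd rfl hi.1
      · exact absurd rfl hi.2
  have h01 : (Sum.inr 0 : Fin (j + 1) ⊕ Fin 3) ≠ Sum.inl 0 := by simp
  have hplanes : planes (base j) P = {q0} := by
    ext q
    rw [mem_planes, Finset.mem_singleton]
    constructor
    · rintro ⟨i, hi, i', hi', hii, rfl⟩
      exact pl_eq hpi h01 hii (hPq i hi) (hPq i' hi')
    · rintro rfl
      exact ⟨Sum.inr 0, by rw [hmemP]; simp, Sum.inl 0, by rw [hmemP]; simp, h01, rfl⟩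
  have hmult : mult (base j) P q0 = j + 2 := by
    unfold mult
    rw [Finset.filter_true_of_mem hPq, hcP]
  have w0 : sW (base j) P = j + 1 := by
    rw [sW, hplanes, Finset.sum_singleton, hmult]; omega
  have r0 : sR (base j) P = j := by
    rw [sR, hplanes, Finset.sum_singleton, hmult]; omega
  have hn1 : Sum.inr 1 ∉ P := by rw [hmemP]; simp
  obtain ⟨w1, r1⟩ := ins_gen hpi hn1 (by
    intro i hi i' hi' hii
    apply not_mem_pl
    rw [dt, bd0, bd1, bd2]
    have := h.minor i i' ((hmemP i).1 hi).1 ((hmemP i').1 hi').1 hii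
    intro h0; apply this; linear_combination h0)
  set P1 := insert (Sum.inr 1) P with hP1
  have hn2 : Sum.inr 2 ∉ P1 := by
    rw [hP1, Finset.mem_insert, hmemP]; simp
  have hd : ∀ i' ∈ P, base j (Sum.inr 2) ∉ pl (base j) (Sum.inr 1) i' := by
    intro i' hi'
    apply not_mem_pl
    rw [dt, bd0, bd1, bd2]
    have := h.minor (Sum.inr 2) i' (by simp) ((hmemP i').1 hi').1
      (fun h => ((hmemP i').1 hi').2 h.symm)
    intro h0; apply this; linear_combination -h0
  obtain ⟨w2, r2⟩ := ins_gen hpi hn2 (by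
    intro i hi i' hi' hii
    rcases Finset.mem_insert.1 hi with rfl | hi
    · rcases Finset.mem_insert.1 hi' with rfl | hi'
      · exact absurd rfl hii
      · exact hd i' hi'
    · rcases Finset.mem_insert.1 hi' with rfl | hi'
      · rw [pl_comm]; exact hd i hi
      · apply not_mem_pl
        rw [dt, hPz i hi, hPz i' hi', bb2]
        have := h.minor i i' ((hmemP i).1 hi).1 ((hmemP i').1 hi').1 hii
        intro h0; apply this; linear_combination -h0)
  have huniv : (Finset.univ : Finset (Fin (j + 1) ⊕ Fin 3)) = insert (Sum.inr 2) P1 := by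
    ext i
    simp only [Finset.mem_univ, true_iff]
    rw [hP1, Finset.mem_insert, Finset.mem_insert, hmemP]
    tauto
  have hc1 : P1.card = j + 3 := by rw [hP1, Finset.card_insert_of_notMem hn1, hcP]
  rw [huniv, w2, r2, w1, r1, w0, r0, hc1, hcP]
  constructor <;> omega

end Pool.Agent.helper89.Zono
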