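import Pool.Agent.helper50.Zono.Walls

/-!
# Walls in terms of points, thin cells
-/

open scoped RealInnerProductSpace

set_option linter.unusedSectionVars false

namespace Pool.Agent.helper89.Zono

open Pool.Agent.helper50.Zono

/-- the value of the linear form `w` at `x` -/
def ev (w x : E3) : ℝ := w 0 * x 0 + w 1 * x 1 + w 2 * x 2

theorem inner_eq_ev (w x : E3) : ⟪w, x⟫ = ev w x := by
  rw [ev, PiLp.inner_apply, Fin.sum_univ_three]
  simp only [RCLike.inner_apply, conj_trivial]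
  ring

theorem ev_neg (w x : E3) : ev w (-x) = - ev w x := by
  simp only [ev, PiLp.neg_apply]; ring

theorem ev_smul (w : E3) (t : ℝ) (x : E3) : ev w (t • x) = t * ev w x := by
  simp only [ev, PiLp.smul_apply, smul_eq_mul]; ring

theorem ev_add (w x y : E3) : ev w (x + y) = ev w x + ev w y := by
  simp only [ev, PiLp.add_apply]; ring

theorem continuous_ev (w : E3) : Continuous (ev w) := by
  unfold ev; fun_prop

variable {ι : Type*}

/-- `x` is on none of the planes -/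
def Gen (a : ι → E3) (x : E3) : Prop := ∀ i, ev (a i) x ≠ 0

/-- `x` and `y` are separated by the plane `i` and by no other plane -/
def Flip (a : ι → E3) (i : ι) (x y : E3) : Prop :=
  ev (a i) x * ev (a i) y < 0 ∧ ∀ j, j ≠ i → 0 < ev (a j) x * ev (a j) y

/-- `x` and `y` are in the same cell -/
def Same (a : ι → E3) (x y : E3) : Prop := ∀ j, 0 < ev (a j) x * ev (a j) y

/-- the walls of the cell of `x` -/
def Wl (a : ι → E3) (x : E3) : Set ι := {i | ∃ y, Flip a i x y}

theorem pos_trans {p q r : ℝ} (h1 : 0 < p * q) (h2 : 0 < q * r) : 0 < p * r := by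
  have hq : q ≠ 0 := by rintro rfl; simp at h1
  have h3 : 0 < (p * r) * (q * q) := by nlinarith [mul_pos h1 h2]
  have hqq : 0 < q * q := mul_self_pos.2 hq
  exact (mul_pos_iff_of_pos_right hqq).1 h3

theorem neg_trans {p q r : ℝ} (h1 : p * q < 0) (h2 : 0 < q * r) : p * r < 0 := by
  have hq : q ≠ 0 := by rintro rfl; simp at h1
  have h3 : 0 < (p * (-r)) * (q * q) := by nlinarith [mul_pos (neg_pos.2 h1) h2]
  have hqq : 0 < q * q := mul_self_pos.2 hq
  have := (mul_pos_iff_of_pos_right hqq).1 h3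
  linarith

theorem Same.symm {a : ι → E3} {x y : E3} (h : Same a x y) : Same a y x := fun j => by
  rw [mul_comm]; exact h j

theorem Same.trans {a : ι → E3} {x y z : E3} (h : Same a x y) (h' : Same a y z) : Same a x z :=
  fun j => pos_trans (h j) (h' j)

theorem Same.gen {a : ι → E3} {x y : E3} (h : Same a x y) : Gen a y := fun j h0 => by
  have := h j; rw [h0, mul_zero] at this; exact lt_irrefl _ this

theorem Gen.same {a : ι → E3} {x : E3} (h : Gen a x) : Same a x x := fun j =>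
  mul_self_pos.2 (h j)

theorem Flip.gen {a : ι → E3} {i : ι} {x y : E3} (h : Flip a i x y) : Gen a y := fun j h0 => by
  by_cases hj : j = i
  · subst hj; have := h.1; rw [h0, mul_zero] at this; exact lt_irrefl _ this
  · have := h.2 j hj; rw [h0, mul_zero] at this; exact lt_irrefl _ this

theorem Flip.of_same {a : ι → E3} {i : ι} {x x' y : E3} (h : Flip a i x y) (h' : Same a x x') :
    Flip a i x' y := by
  constructor
  · rw [mul_comm]
    exact neg_trans (by rw [mul_comm]; exact h.1) (h' i)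
  · intro j hj
    exact pos_trans (by rw [mul_comm]; exact h' j) (h.2 j hj)

theorem Wl_congr {a : ι → E3} {x y : E3} (h : Same a x y) : Wl a x = Wl a y := by
  ext i
  constructor
  · rintro ⟨z, hz⟩; exact ⟨z, hz.of_same h⟩
  · rintro ⟨z, hz⟩; exact ⟨z, hz.of_same h.symm⟩

theorem Flip.neg {a : ι → E3} {i : ι} {x y : E3} (h : Flip a i x y) : Flip a i (-x) (-y) := by
  constructor
  · rw [ev_neg, ev_neg, neg_mul_neg]; exact h.1
  · intro j hj
    rw [ev_neg, ev_neg, neg_mul_neg]; exact h.2 j hj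

theorem Wl_neg (a : ι → E3) (x : E3) : Wl a (-x) = Wl a x := by
  ext i
  constructor
  · rintro ⟨z, hz⟩
    refine ⟨-z, ?_⟩
    have := hz.neg
    rwa [neg_neg] at this
  · rintro ⟨z, hz⟩; exact ⟨-z, hz.neg⟩

theorem Gen.neg {a : ι → E3} {x : E3} (h : Gen a x) : Gen a (-x) := fun i => by
  rw [ev_neg]; exact neg_ne_zero.2 (h i)

theorem Gen.smul {a : ι → E3} {x : E3} (h : Gen a x) {t : ℝ} (ht : t ≠ 0) : Gen a (t • x) :=
  fun i => by rw [ev_smul]; exact mul_ne_zero ht (h i)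

theorem same_smul {a : ι → E3} {x : E3} (h : Gen a x) {t : ℝ} (ht : 0 < t) : Same a x (t • x) :=
  fun i => by
    rw [ev_smul]
    have := h i
    have h2 : 0 < ev (a i) x * ev (a i) x := mul_self_pos.2 this
    nlinarith

/-- three dependent vectors: not all three are walls. -/
theorem three_dep {c1 c2 c3 p1 p2 p3 u1 u2 u3 v1 v2 v3 w1 w2 w3 : ℝ}
    (hc1 : c1 ≠ 0) (hc2 : c2 ≠ 0) (hc3 : c3 ≠ 0)
    (h0 : c1 * p1 + c2 * p2 + c3 * p3 = 0)
    (hu : c1 * u1 + c2 * u2 + c3 * u3 = 0) (hv : c1 * v1 + c2 * v2 + c3 * v3 = 0)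
    (hw : c1 * w1 + c2 * w2 + c3 * w3 = 0)
    (u1n : p1 * u1 < 0) (u2p : 0 < p2 * u2) (u3p : 0 < p3 * u3)
    (v1p : 0 < p1 * v1) (v2n : p2 * v2 < 0) (v3p : 0 < p3 * v3)
    (w1p : 0 < p1 * w1) (w2p : 0 < p2 * w2) (w3n : p3 * w3 < 0) : False := by
  have key : ∀ {c p q : ℝ}, c ≠ 0 → 0 < p * q → 0 < c * p → 0 < c * q := by
    intro c p q _ h1 h2
    exact pos_trans h2 h1
  have hp1 : p1 ≠ 0 := by rintro rfl; simp at v1p
  have hp2 : p2 ≠ 0 := by rintro rfl; simp at u2p
  have hp3 : p3 ≠ 0 := by rintro rfl; simp at u3p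
  have k1 := mul_ne_zero hc1 hp1
  have k2 := mul_ne_zero hc2 hp2
  have k3 := mul_ne_zero hc3 hp3
  have A : ∀ {c p q : ℝ}, 0 < c * p → 0 < p * q → 0 < c * q := fun h1 h2 => pos_trans h1 h2
  have B : ∀ {c p q : ℝ}, 0 < c * p → p * q < 0 → c * q < 0 := by
    intro c p q h1 h2
    have := pos_trans h1 (by linarith : 0 < p * (-q))
    linarith
  have C : ∀ {c p q : ℝ}, c * p < 0 → 0 < p * q → c * q < 0 := fun h1 h2 => neg_trans h1 h2
  have D : ∀ {c p q : ℝ}, c * p < 0 → p * q < 0 → 0 < c * q := by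
    intro c p q h1 h2
    have := neg_trans h1 (by linarith : 0 < p * (-q))
    linarith
  rcases lt_or_gt_of_ne k1 with s1 | s1 <;> rcases lt_or_gt_of_ne k2 with s2 | s2 <;>
    rcases lt_or_gt_of_ne k3 with s3 | s3
  · linarith
  · have := C s1 w1p; have := C s2 w2p; have := B s3 w3n; linarith
  · have := C s1 v1p; have := B s2 v2n; have := C s3 v3p; linarith
  · have := D s1 u1n; have := A s2 u2p; have := A s3 u3p; linarith
  · have := B s1 u1n; have := C s2 u2p; have := C s3 u3p; linarith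
  · have := A s1 v1p; have := D s2 v2n; have := A s3 v3p; linarith
  · have := A s1 w1p; have := A s2 w2p; have := D s3 w3n; linarith
  · linarith

/-- a point of the plane `d` on the boundary of the cell of `x` -/
theorem exists_bdry {a : ι → E3} {d : ι} {x : E3} (h : d ∈ Wl a x) :
    ∃ z, ev (a d) z = 0 ∧ ∀ j, j ≠ d → 0 < ev (a j) x * ev (a j) z := by
  obtain ⟨y, h1, h2⟩ := h
  refine ⟨|ev (a d) y| • x + |ev (a d) x| • y, ?_, ?_⟩
  · rw [ev_add, ev_smul, ev_smul]
    rcases lt_or_ge 0 (ev (a d) x) with h3 | h3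
    · have h4 : ev (a d) y < 0 := by
        by_contra h5
        push Not at h5
        nlinarith
      rw [abs_of_pos h3, abs_of_neg h4]; ring
    · have h3' : ev (a d) x < 0 := lt_of_le_of_ne h3 (by intro h5; rw [h5, zero_mul] at h1; exact lt_irrefl _ h1)
      have h4 : 0 < ev (a d) y := by
        by_contra h5
        push Not at h5
        nlinarith
      rw [abs_of_neg h3', abs_of_pos h4]; ring
  · intro j hj
    rw [ev_add, ev_smul, ev_smul]
    have hx : ev (a d) x ≠ 0 := by intro h5; rw [h5, zero_mul] at h1; exact lt_irrefl _ h1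
    have hy : ev (a d) y ≠ 0 := by intro h5; rw [h5, mul_zero] at h1; exact lt_irrefl _ h1
    have h3 := h2 j hj
    have h4 : ev (a j) x ≠ 0 := by intro h5; rw [h5, zero_mul] at h3; exact lt_irrefl _ h3
    have : ev (a j) x * (|ev (a d) y| * ev (a j) x + |ev (a d) x| * ev (a j) y) =
      |ev (a d) y| * (ev (a j) x * ev (a j) x) + |ev (a d) x| * (ev (a j) x * ev (a j) y) := by ring
    rw [this]
    have e1 := mul_pos (abs_pos.2 hy) (mul_self_pos.2 h4)
    have e2 := mul_pos (abs_pos.2 hx) h3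
    linarith

/-- the coordinate data of the arrangements of the family -/
structure Inv (a : ι → E3) (l d : ι) : Prop where
  ld : l ≠ d
  l0 : a l 0 = 0
  l1 : a l 1 = 1
  l2 : a l 2 = 0
  d0 : a d 0 = 0
  d1 : a d 1 = 0
  d2 : a d 2 = 1
  minor : ∀ i j, i ≠ d → j ≠ d → i ≠ j → a i 0 * a j 1 - a i 1 * a j 0 ≠ 0
  ex : ∃ i, i ≠ l ∧ i ≠ d

variable {a : ι → E3} {l d : ι}

theorem Inv.ev_d (h : Inv a l d) (x : E3) : ev (a d) x = x 2 := by
  rw [ev, h.d0, h.d1, h.d2]; ring

theorem Inv.ev_l (h : Inv a l d) (x : E3) : ev (a l) x = x 1 := by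
  rw [ev, h.l0, h.l1, h.l2]; ring

theorem Inv.alpha (h : Inv a l d) {k : ι} (hl : k ≠ l) (hd : k ≠ d) : a k 0 ≠ 0 := by
  have := h.minor k l hd h.ld hl
  rw [h.l0, h.l1] at this
  simpa using this

/-- at most two walls of a thin cell are walls of a thin neighbour -/
theorem Inv.thin_nbr (h : Inv a l d) {x : E3} (hx : d ∈ Wl a x) {i1 i2 i3 : ι}
    (h1 : i1 ≠ d) (h2 : i2 ≠ d) (h3 : i3 ≠ d) (h12 : i1 ≠ i2) (h13 : i1 ≠ i3) (h23 : i2 ≠ i3)
    {y1 y2 y3 : E3} (f1 : Flip a i1 x y1) (f2 : Flip a i2 x y2) (f3 : Flip a i3 x y3)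
    (g1 : d ∈ Wl a y1) (g2 : d ∈ Wl a y2) (g3 : d ∈ Wl a y3) : False := by
  obtain ⟨z, hz0, hz⟩ := exists_bdry hx
  obtain ⟨z1, hz10, hz1⟩ := exists_bdry g1
  obtain ⟨z2, hz20, hz2⟩ := exists_bdry g2
  obtain ⟨z3, hz30, hz3⟩ := exists_bdry g3
  rw [h.ev_d] at hz0 hz10 hz20 hz30
  have rel : ∀ z : E3, z 2 = 0 →
      (a i2 0 * a i3 1 - a i2 1 * a i3 0) * ev (a i1) z +
      (-(a i1 0 * a i3 1 - a i1 1 * a i3 0)) * ev (a i2) z +
      (a i1 0 * a i2 1 - a i1 1 * a i2 0) * ev (a i3) z = 0 := by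
    intro z hz
    rw [ev, ev, ev, hz]; ring
  have P : ∀ {i j : ι} {y z z' : E3}, j ≠ d → j ≠ i →
      (∀ j, j ≠ d → 0 < ev (a j) x * ev (a j) z) → Flip a i x y →
      (∀ j, j ≠ d → 0 < ev (a j) y * ev (a j) z') → 0 < ev (a j) z * ev (a j) z' := by
    intro i j y z z' hjd hji ha hb hc
    have e1 := ha j hjd
    rw [mul_comm] at e1
    exact pos_trans (pos_trans e1 (hb.2 j hji)) (hc j hjd)
  have Q : ∀ {i : ι} {y z z' : E3}, i ≠ d →
      (∀ j, j ≠ d → 0 < ev (a j) x * ev (a j) z) → Flip a i x y →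
      (∀ j, j ≠ d → 0 < ev (a j) y * ev (a j) z') → ev (a i) z * ev (a i) z' < 0 := by
    intro i y z z' hid ha hb hc
    have e1 := ha i hid
    have e2 := neg_trans hb.1 (hc i hid)
    have e3 := neg_trans (by rw [mul_comm]; exact e2 : ev (a i) z' * ev (a i) x < 0) e1
    rw [mul_comm]; exact e3
  exact three_dep (h.minor i2 i3 h2 h3 h23) (neg_ne_zero.2 (h.minor i1 i3 h1 h3 h13))
    (h.minor i1 i2 h1 h2 h12) (rel z hz0) (rel z1 hz10) (rel z2 hz20) (rel z3 hz30)
    (Q h1 hz f1 hz1) (P h2 h12.symm hz f1 hz1) (P h3 h13.symm hz f1 hz1)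
    (P h1 h12 hz f2 hz2) (Q h2 hz f2 hz2) (P h3 h23.symm hz f2 hz2)
    (P h1 h13 hz f3 hz3) (P h2 h23 hz f3 hz3) (Q h3 hz f3 hz3)

/-- the walls of `x` that are not `d` and lead to a thin cell -/
def Th (a : ι → E3) (d : ι) (x : E3) : Set ι := {i | i ≠ d ∧ ∃ y, Flip a i x y ∧ d ∈ Wl a y}

theorem Inv.card_Th [Finite ι] (h : Inv a l d) {x : E3} (hx : d ∈ Wl a x) :
    (Th a d x).ncard ≤ 2 := by
  by_contra hlt
  push Not at hlt
  obtain ⟨i1, i2, i3, m1, m2, m3, h12, h13, h23⟩ := (Set.two_lt_ncard_iff (Set.toFinite _)).1 hlt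
  obtain ⟨n1, y1, f1, g1⟩ := m1
  obtain ⟨n2, y2, f2, g2⟩ := m2
  obtain ⟨n3, y3, f3, g3⟩ := m3
  exact h.thin_nbr hx n1 n2 n3 h12 h13 h23 f1 f2 f3 g1 g2 g3

/-- local form of the thin lemma -/
theorem Inv.thin_local [Finite ι] (h : Inv a l d) {x0 : E3} (hx0 : x0 ≠ 0) (hz : x0 2 = 0) :
    ∀ᶠ x in nhds x0, Gen a x → x 2 ≠ 0 → d ∈ Wl a x := by
  -- the direction
  obtain ⟨w, hw2, hw⟩ : ∃ w : E3, w 2 = -2 ∧ ∀ i, i ≠ d → ev (a i) x0 = 0 → ev (a i) w = 0 := by
    by_cases hex : ∃ i, i ≠ d ∧ ev (a i) x0 = 0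
    · obtain ⟨i, hid, hi⟩ := hex
      set c := 2 * a i 2 / (a i 0 ^ 2 + a i 1 ^ 2) with hc
      have hpos : 0 < a i 0 ^ 2 + a i 1 ^ 2 := by
        by_cases hil : i = l
        · rw [hil, h.l0, h.l1]; norm_num
        · have := h.alpha hil hid; positivity
      refine ⟨!₂[c * a i 0, c * a i 1, -2], by simp, ?_⟩
      intro j hjd hj
      have hij : j = i := by
        by_contra hne
        have hm := h.minor j i hjd hid hne
        apply hx0
        rw [ev, hz] at hi hj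
        have e0 : (a j 0 * a i 1 - a j 1 * a i 0) * x0 0 = 0 := by linear_combination (a i 1) * hj - (a j 1) * hi
        have e1 : (a j 0 * a i 1 - a j 1 * a i 0) * x0 1 = 0 := by linear_combination (a j 0) * hi - (a i 0) * hj
        have f0 := (mul_eq_zero.1 e0).resolve_left hm
        have f1 := (mul_eq_zero.1 e1).resolve_left hm
        ext k
        fin_cases k
        · simpa using f0
        · simpa using f1
        · simpa using hz
      rw [hij, ev]
      simp only [Matrix.cons_val_zero, Matrix.cons_val_one, Matrix.cons_val]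
      have : c * (a i 0 ^ 2 + a i 1 ^ 2) = 2 * a i 2 := by
        rw [hc]; exact div_mul_cancel₀ _ hpos.ne'
      linear_combination this
    · push Not at hex
      exact ⟨!₂[0, 0, -2], by simp, fun i hi h0 => absurd h0 (hex i hi)⟩
  have hev : ∀ᶠ x in nhds x0, ∀ k, k ≠ d → ev (a k) x0 ≠ 0 →
      0 < ev (a k) x * ev (a k) (x + x 2 • w) := by
    rw [Filter.eventually_all]
    intro k
    by_cases hk : ev (a k) x0 = 0
    · exact Filter.Eventually.of_forall fun x _ h' => absurd hk h'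
    · have hcont : Continuous fun x : E3 => ev (a k) x * ev (a k) (x + x 2 • w) := by
        unfold ev; fun_prop
      have h0 : 0 < ev (a k) x0 * ev (a k) (x0 + x0 2 • w) := by
        rw [hz, zero_smul, add_zero]; exact mul_self_pos.2 hk
      filter_upwards [hcont.continuousAt.eventually (lt_mem_nhds h0)] with x hx _ _ using hx
  filter_upwards [hev] with x hx hgen hx2
  refine ⟨x + x 2 • w, ?_, ?_⟩
  · rw [h.ev_d, h.ev_d]
    have : (x + x 2 • w) 2 = - x 2 := by
      simp only [PiLp.add_apply, PiLp.smul_apply, smul_eq_mul, hw2]; ring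
    rw [this]
    have : 0 < x 2 * x 2 := mul_self_pos.2 hx2
    linarith
  · intro k hk
    by_cases hk0 : ev (a k) x0 = 0
    · rw [ev_add, ev_smul, hw k hk hk0, mul_zero, add_zero]
      exact mul_self_pos.2 (hgen k)
    · exact hx k hk hk0

/-- **Thin lemma**: a cell containing points close to the plane `d` has `d` as a wall. -/
theorem Inv.thin [Finite ι] (h : Inv a l d) :
    ∃ δ > 0, ∀ x, Gen a x → |x 2| < δ * ‖x‖ → d ∈ Wl a x := by
  set B : Set E3 := {x | ‖x‖ = 1 ∧ Gen a x ∧ d ∉ Wl a x} with hB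
  have hBs : B ⊆ Metric.sphere 0 1 := by
    rintro x ⟨hx, -⟩
    simpa using hx
  have hcs : closure B ⊆ Metric.sphere 0 1 :=
    closure_minimal hBs Metric.isClosed_sphere
  have hcomp : IsCompact (closure B) :=
    (isCompact_sphere (0 : E3) 1).of_isClosed_subset isClosed_closure hcs
  have hne : ∀ x ∈ closure B, x 2 ≠ 0 := by
    intro x0 hx0 hz
    have hn : ‖x0‖ = 1 := by simpa using hcs hx0
    have hx00 : x0 ≠ 0 := by rintro rfl; simp at hn
    rw [mem_closure_iff_frequently] at hx0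
    apply hx0
    filter_upwards [h.thin_local hx00 hz] with x hx hxB
    obtain ⟨-, hg, hw⟩ := hxB
    refine hw (hx hg ?_)
    have := hg d
    rwa [h.ev_d] at this
  have main : ∃ δ > 0, ∀ x ∈ B, δ ≤ |x 2| := by
    by_cases hBe : (closure B).Nonempty
    · obtain ⟨x1, hx1, hmin⟩ := hcomp.exists_isMinOn hBe
        (f := fun x : E3 => |x 2|) (by fun_prop)
      refine ⟨|x1 2|, abs_pos.2 (hne x1 hx1), fun x hx => hmin (subset_closure hx)⟩
    · exact ⟨1, one_pos, fun x hx => absurd ⟨x, subset_closure hx⟩ hBe⟩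
  obtain ⟨δ, hδ, hmin⟩ := main
  refine ⟨δ, hδ, fun x hg hlt => ?_⟩
  by_contra hw
  have hx0 : x ≠ 0 := by
    rintro rfl
    exact hg d (by simp [ev])
  have hn : 0 < ‖x‖ := norm_pos_iff.2 hx0
  have hmem : ‖x‖⁻¹ • x ∈ B := by
    refine ⟨?_, hg.smul (by positivity), ?_⟩
    · rw [norm_smul, norm_inv, norm_norm, inv_mul_cancel₀ hn.ne']
    · rw [← Wl_congr (same_smul hg (by positivity : 0 < ‖x‖⁻¹))]; exact hw
  have h1 := hmin _ hmem
  have h2 : |(‖x‖⁻¹ • x) 2| = ‖x‖⁻¹ * |x 2| := by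
    simp only [PiLp.smul_apply, smul_eq_mul, abs_mul, abs_inv, abs_norm]
  rw [h2] at h1
  have h3 : ‖x‖ * δ ≤ |x 2| := by
    calc ‖x‖ * δ ≤ ‖x‖ * (‖x‖⁻¹ * |x 2|) := mul_le_mul_of_nonneg_left h1 hn.le
      _ = |x 2| := by field_simp
  linarith

end Pool.Agent.helper89.Zono
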