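import Pool.Agent.helper89.Zono.Exc

/-!
# Counting planes in the new arrangements
-/

open scoped RealInnerProductSpace

set_option linter.unusedSectionVars false

namespace Pool.Agent.helper89.Zono

open Pool.Agent.helper50.Zono

section general

variable {ι : Type*} [DecidableEq ι]

/-- `∑ (mult - 1)` -/
noncomputable def sW (a : ι → E3) (I : Finset ι) : ℕ := ∑ q ∈ planes a I, (mult a I q - 1)

/-- `∑ (mult - 2)` -/
noncomputable def sR (a : ι → E3) (I : Finset ι) : ℕ := ∑ q ∈ planes a I, (mult a I q - 2)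

theorem sW_insert {a : ι → E3} (h : PI a) {I : Finset ι} {i : ι} (hi : i ∉ I) :
    sW a (insert i I) = sW a I + vtx a i I := sum_insert h hi

open Classical in
theorem sR_insert {a : ι → E3} (h : PI a) {I : Finset ι} {i : ι} (hi : i ∉ I) :
    sR a (insert i I) = sR a I + ((planes a I).filter (fun q => a i ∈ q)).card := by
  classical
  have hplanes : planes a (insert i I) = planes a I ∪ I.image (fun j => pl a i j) := by
    ext q
    rw [Finset.mem_union, mem_planes, mem_planes, Finset.mem_image]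
    constructor
    · rintro ⟨k, hk, l, hl, hkl, rfl⟩
      rcases Finset.mem_insert.1 hk with rfl | hk'
      · rcases Finset.mem_insert.1 hl with rfl | hl'
        · exact absurd rfl hkl
        · exact Or.inr ⟨l, hl', rfl⟩
      · rcases Finset.mem_insert.1 hl with rfl | hl'
        · exact Or.inr ⟨k, hk', pl_comm _ _ _⟩
        · exact Or.inl ⟨k, hk', l, hl', hkl, rfl⟩
    · rintro (⟨k, hk, l, hl, hkl, rfl⟩ | ⟨j, hj, rfl⟩)
      · exact ⟨k, Finset.mem_insert_of_mem hk, l, Finset.mem_insert_of_mem hl, hkl, rfl⟩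
      · exact ⟨i, Finset.mem_insert_self _ _, j, Finset.mem_insert_of_mem hj,
          fun h => hi (h ▸ hj), rfl⟩
  have hmult : ∀ q, mult a (insert i I) q = mult a I q + if a i ∈ q then 1 else 0 := by
    intro q
    unfold mult
    rw [Finset.filter_insert]
    split_ifs with hq
    · rw [Finset.card_insert_of_notMem]
      intro hmem
      exact hi (Finset.mem_filter.1 hmem).1
    · rw [add_zero]
  have hterm : ∀ q ∈ planes a I ∪ I.image (fun j => pl a i j),
      mult a (insert i I) q - 2 = (if q ∈ planes a I then mult a I q - 2 else 0) +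
        if q ∈ (planes a I).filter (fun q => a i ∈ q) then 1 else 0 := by
    intro q hq
    rw [hmult]
    by_cases hqI : q ∈ planes a I
    · rw [if_pos hqI]
      have h2 := two_le_mult hqI
      by_cases hiq : a i ∈ q
      · rw [if_pos hiq, if_pos (Finset.mem_filter.2 ⟨hqI, hiq⟩)]
        omega
      · have hnm : q ∉ (planes a I).filter (fun q => a i ∈ q) := fun hmem =>
          hiq (Finset.mem_filter.1 hmem).2
        rw [if_neg hiq, if_neg hnm]
        omega
    · rw [if_neg hqI, if_neg (fun hmem => hqI (Finset.mem_filter.1 hmem).1)]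
      have hqim : q ∈ I.image (fun j => pl a i j) := by
        rcases Finset.mem_union.1 hq with h' | h'
        · exact absurd h' hqI
        · exact h'
      obtain ⟨j, hj, rfl⟩ := Finset.mem_image.1 hqim
      rw [if_pos (mem_pl_left _ _ _)]
      have hij : i ≠ j := fun h => hi (h ▸ hj)
      have h1 : mult a I (pl a i j) = 1 := by
        unfold mult
        rw [Finset.card_eq_one]
        refine ⟨j, ?_⟩
        ext k
        rw [Finset.mem_filter, Finset.mem_singleton]
        constructor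
        · rintro ⟨hk, hkq⟩
          by_contra hkj
          exact hqI (mem_planes.2 ⟨j, hj, k, hk, Ne.symm hkj,
            (pl_eq h hij (Ne.symm hkj) (mem_pl_right _ _ _) hkq).symm⟩)
        · rintro rfl
          exact ⟨hj, mem_pl_right _ _ _⟩
      rw [h1]
  unfold sR
  rw [hplanes, Finset.sum_congr rfl hterm, Finset.sum_add_distrib]
  congr 1
  · rw [← Finset.sum_filter]
    congr 1
    ext q
    rw [Finset.mem_filter, Finset.mem_union]
    tauto
  · rw [← Finset.sum_filter, Finset.sum_const, smul_eq_mul, mul_one]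
    congr 1
    ext q
    rw [Finset.mem_filter, Finset.mem_union, Finset.mem_filter]
    tauto

/-- adding a generic vector -/
theorem ins_gen {a : ι → E3} (h : PI a) {I : Finset ι} {i : ι} (hi : i ∉ I)
    (hg : ∀ j ∈ I, ∀ k ∈ I, j ≠ k → a i ∉ pl a j k) :
    sW a (insert i I) = sW a I + I.card ∧ sR a (insert i I) = sR a I := by
  classical
  constructor
  · rw [sW_insert h hi, vtx, Finset.card_image_of_injOn]
    intro j hj k hk hjk
    by_contra hne
    have hij : i ≠ j := fun h => hi (h ▸ hj)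
    apply hg j hj k hk hne
    have h1 : pl a i j = pl a i k := hjk
    have h2 : a k ∈ pl a i j := h1 ▸ mem_pl_right a i k
    rw [pl_eq h hij hne (mem_pl_right _ _ _) h2]
    exact mem_pl_left _ _ _
  · rw [sR_insert h hi]
    have : (planes a I).filter (fun q => a i ∈ q) = ∅ := by
      rw [Finset.filter_eq_empty_iff]
      intro q hq hiq
      obtain ⟨j, hj, k, hk, hjk, rfl⟩ := mem_planes.1 hq
      exact hg j hj k hk hjk hiq
    rw [this, Finset.card_empty, add_zero]

/-- adding a vector which is in exactly one plane, of multiplicity 2 -/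
theorem ins_one {a : ι → E3} (h : PI a) {I : Finset ι} {i u w : ι} (hi : i ∉ I)
    (hu : u ∈ I) (hw : w ∈ I) (huw : u ≠ w) (hiu : a i ∈ pl a u w)
    (hg : ∀ j ∈ I, ∀ k ∈ I, j ≠ k → a i ∈ pl a j k → (j = u ∧ k = w) ∨ (j = w ∧ k = u)) :
    sW a (insert i I) = sW a I + (I.card - 1) ∧ sR a (insert i I) = sR a I + 1 := by
  classical
  have hiu' : i ≠ u := fun h => hi (h ▸ hu)
  have hiw' : i ≠ w := fun h => hi (h ▸ hw)
  constructor
  · have himg : I.image (fun j => pl a i j) = (I.erase w).image (fun j => pl a i j) := by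
      ext q
      rw [Finset.mem_image, Finset.mem_image]
      constructor
      · rintro ⟨j, hj, rfl⟩
        by_cases hjw : j = w
        · refine ⟨u, Finset.mem_erase.2 ⟨huw, hu⟩, ?_⟩
          rw [hjw, pl_eq h huw hiu' hiu (mem_pl_left _ _ _),
            pl_eq h huw hiw' hiu (mem_pl_right _ _ _)]
        · exact ⟨j, Finset.mem_erase.2 ⟨hjw, hj⟩, rfl⟩
      · rintro ⟨j, hj, rfl⟩
        exact ⟨j, Finset.mem_of_mem_erase hj, rfl⟩
    rw [sW_insert h hi, vtx, himg, Finset.card_image_of_injOn, Finset.card_erase_of_mem hw]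
    intro j hj k hk hjk
    by_contra hne
    have hj' := Finset.mem_of_mem_erase hj
    have hk' := Finset.mem_of_mem_erase hk
    have hij : i ≠ j := fun h => hi (h ▸ hj')
    have h1 : pl a i j = pl a i k := hjk
    have h2 : a k ∈ pl a i j := h1 ▸ mem_pl_right a i k
    have h3 : a i ∈ pl a j k := by
      rw [pl_eq h hij hne (mem_pl_right _ _ _) h2]
      exact mem_pl_left _ _ _
    rcases hg j hj' k hk' hne h3 with ⟨_, h4⟩ | ⟨h4, _⟩
    · exact (Finset.mem_erase.1 hk).1 h4
    · exact (Finset.mem_erase.1 hj).1 h4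
  · rw [sR_insert h hi]
    have : (planes a I).filter (fun q => a i ∈ q) = {pl a u w} := by
      ext q
      rw [Finset.mem_filter, Finset.mem_singleton]
      constructor
      · rintro ⟨hq, hiq⟩
        obtain ⟨j, hj, k, hk, hjk, rfl⟩ := mem_planes.1 hq
        rcases hg j hj k hk hjk hiq with ⟨h1, h2⟩ | ⟨h1, h2⟩
        · rw [h1, h2]
        · rw [h1, h2, pl_comm]
      · rintro rfl
        exact ⟨mem_planes.2 ⟨u, hu, w, hw, huw, rfl⟩, hiu⟩
    rw [this, Finset.card_singleton]

/-- the counts only depend on the vectors -/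
theorem planes_map {κ : Type*} [DecidableEq κ] {A : κ → E3} {a : ι → E3} (f : ι ↪ κ)
    (hf : ∀ i, A (f i) = a i) (I : Finset ι) : planes A (I.map f) = planes a I := by
  ext q
  rw [mem_planes, mem_planes]
  constructor
  · rintro ⟨i, hi, j, hj, hij, rfl⟩
    rw [Finset.mem_map] at hi hj
    obtain ⟨i', hi', rfl⟩ := hi
    obtain ⟨j', hj', rfl⟩ := hj
    exact ⟨i', hi', j', hj', fun h => hij (by rw [h]), by rw [pl, pl, hf, hf]⟩
  · rintro ⟨i, hi, j, hj, hij, rfl⟩
    exact ⟨f i, Finset.mem_map_of_mem f hi, f j, Finset.mem_map_of_mem f hj,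
      fun h => hij (f.injective h), by rw [pl, pl, hf, hf]⟩

theorem mult_map {κ : Type*} [DecidableEq κ] {A : κ → E3} {a : ι → E3} (f : ι ↪ κ)
    (hf : ∀ i, A (f i) = a i) (I : Finset ι) (q : Submodule ℝ E3) :
    mult A (I.map f) q = mult a I q := by
  classical
  unfold mult
  rw [Finset.filter_map, Finset.card_map]
  congr 1
  ext k
  simp [hf]

theorem sW_map {κ : Type*} [DecidableEq κ] {A : κ → E3} {a : ι → E3} (f : ι ↪ κ)
    (hf : ∀ i, A (f i) = a i) (I : Finset ι) : sW A (I.map f) = sW a I := by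
  unfold sW
  rw [planes_map f hf]
  refine Finset.sum_congr rfl fun q _ => ?_
  rw [mult_map f hf]

theorem sR_map {κ : Type*} [DecidableEq κ] {A : κ → E3} {a : ι → E3} (f : ι ↪ κ)
    (hf : ∀ i, A (f i) = a i) (I : Finset ι) : sR A (I.map f) = sR a I := by
  unfold sR
  rw [planes_map f hf]
  refine Finset.sum_congr rfl fun q _ => ?_
  rw [mult_map f hf]

end general

/-- determinant -/
def dt (u v w : E3) : ℝ :=
  u 0 * (v 1 * w 2 - v 2 * w 1) - u 1 * (v 0 * w 2 - v 2 * w 0) + u 2 * (v 0 * w 1 - v 1 * w 0)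

variable {ι : Type*} {a : ι → E3} {l d : ι} {σ κ ε s : ℝ}

theorem not_mem_pl {u : E3} {i j : ι} (h : dt u (a i) (a j) ≠ 0) : u ∉ pl a i j := by
  intro hu
  apply h
  rw [pl, Submodule.mem_span_pair] at hu
  obtain ⟨x, y, rfl⟩ := hu
  simp only [dt, PiLp.add_apply, PiLp.smul_apply, smul_eq_mul]
  ring

theorem Inv.pi (h : Inv a l d) : PI a := by
  have key : ∀ j, j ≠ d → ∀ t : ℝ, t * a j 0 = 0 → t * a j 1 = 0 → t = 0 := by
    intro j hj t h1 h2
    by_cases hjl : j = l
    · rw [hjl, h.l1, mul_one] at h2; exact h2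
    · exact (mul_eq_zero.1 h1).resolve_right (h.alpha hjl hj)
  intro i j hij
  rw [LinearIndependent.pair_iff]
  intro x y hxy
  have e0 := congrFun (congrArg WithLp.ofLp hxy) 0
  have e1 := congrFun (congrArg WithLp.ofLp hxy) 1
  have e2 := congrFun (congrArg WithLp.ofLp hxy) 2
  simp only [PiLp.add_apply, PiLp.smul_apply, smul_eq_mul, PiLp.zero_apply] at e0 e1 e2
  by_cases hi : i = d
  · subst hi
    have hj : j ≠ i := hij.symm
    rw [h.d0] at e0
    rw [h.d1] at e1
    rw [h.d2] at e2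
    have hy := key j hj y (by linarith) (by linarith)
    rw [hy] at e2
    exact ⟨by linarith, hy⟩
  · by_cases hj : j = d
    · subst hj
      rw [h.d0] at e0
      rw [h.d1] at e1
      rw [h.d2] at e2
      have hx := key i hi x (by linarith) (by linarith)
      rw [hx] at e2
      exact ⟨hx, by linarith⟩
    · have hm := h.minor i j hi hj hij
      have f1 : x * (a i 0 * a j 1 - a i 1 * a j 0) = 0 := by
        linear_combination (a j 1) * e0 - (a j 0) * e1
      have f2 : y * (a i 0 * a j 1 - a i 1 * a j 0) = 0 := by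
        linear_combination (a i 0) * e1 - (a i 1) * e0
      exact ⟨(mul_eq_zero.1 f1).resolve_right hm, (mul_eq_zero.1 f2).resolve_right hm⟩

theorem Inv.arr (h : Inv a l d) : IsArr a := by
  refine ⟨h.pi, ?_⟩
  obtain ⟨i, hil, hid⟩ := h.ex
  have hα := h.alpha hil hid
  rw [eq_top_iff]
  intro x _
  have hx : x = (x 0 / a i 0) • a i + (x 1 - x 0 / a i 0 * a i 1) • a l +
      (x 2 - x 0 / a i 0 * a i 2) • a d := by
    ext k
    fin_cases k
    · simp [h.l0, h.d0]; field_simp
    · simp [h.l1, h.d1]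
    · simp [h.l2, h.d2]
  rw [hx]
  refine Submodule.add_mem _ (Submodule.add_mem _ ?_ ?_) ?_ <;>
    exact Submodule.smul_mem _ _ (Submodule.subset_span ⟨_, rfl⟩)

/-- genericity -/
def Qg (a : ι → E3) (d : ι) (σ κ ε : ℝ) : Prop :=
  ∀ b i j, i ≠ j → i ≠ d → j ≠ d → dt (vec σ κ ε (sgn b)) (a i) (a j) ≠ 0

theorem Par.not_mem (P : Par a l d σ κ ε) (h : Inv a l d) (hQ : Qg a d σ κ ε) (b : Bool)
    {i j : ι} (hij : i ≠ j) : vec σ κ ε (sgn b) ∉ pl a i j := by
  classical
  have hε := P.hε
  -- a pair containing `d`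
  have main : ∀ j, j ≠ d → vec σ κ ε (sgn b) ∉ pl a d j := by
    intro j hj
    apply not_mem_pl
    have hi := (P.inv h).minor (Sum.inl j) (Sum.inr b) (by simpa using hj) (by simp) (by simp)
    simp only [trip, Sum.elim_inl, Sum.elim_inr] at hi
    rw [dt, h.d0, h.d1, h.d2]
    intro h0
    apply hi
    linear_combination h0
  by_cases hi : i = d
  · subst hi; exact main j hij.symm
  · by_cases hj : j = d
    · subst hj; rw [pl_comm]; exact main i hi
    · exact not_mem_pl (hQ b i j hij hi hj)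

variable [Fintype ι] [DecidableEq ι]

theorem Par.count_trip (P : Par a l d σ κ ε) (h : Inv a l d) (hQ : Qg a d σ κ ε) :
    sW (trip a σ κ ε) Finset.univ = sW a Finset.univ + 2 * Fintype.card ι ∧
      sR (trip a σ κ ε) Finset.univ = sR a Finset.univ + 1 := by
  classical
  have hκ : 0 < κ := lt_of_lt_of_le one_pos P.hκ
  have hε := P.hε
  set A := trip a σ κ ε with hA
  have hpi : PI A := (P.inv h).pi
  set I0 : Finset (ι ⊕ Bool) := Finset.univ.map Function.Embedding.inl with hI0
  have hmem0 : ∀ j, j ∈ I0 → ∃ i, j = Sum.inl i := by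
    intro j hj
    rw [hI0, Finset.mem_map] at hj
    obtain ⟨i, -, rfl⟩ := hj
    exact ⟨i, rfl⟩
  have hpl : ∀ i j : ι, pl A (Sum.inl i) (Sum.inl j) = pl a i j := fun i j => rfl
  have hn1 : Sum.inr true ∉ I0 := by
    intro h1; obtain ⟨i, hi⟩ := hmem0 _ h1; exact Sum.inr_ne_inl hi
  set I1 := insert (Sum.inr true) I0 with hI1
  have hn2 : Sum.inr false ∉ I1 := by
    intro h1
    rcases Finset.mem_insert.1 h1 with h1 | h1
    · simp at h1
    · obtain ⟨i, hi⟩ := hmem0 _ h1; exact Sum.inr_ne_inl hi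
  have huniv : (Finset.univ : Finset (ι ⊕ Bool)) = insert (Sum.inr false) I1 := by
    ext j
    simp only [Finset.mem_univ, true_iff]
    rw [hI1, Finset.mem_insert, Finset.mem_insert]
    rcases j with j | b
    · right; right; rw [hI0, Finset.mem_map]; exact ⟨j, Finset.mem_univ _, rfl⟩
    · cases b <;> simp
  have hc0 : I0.card = Fintype.card ι := by rw [hI0, Finset.card_map, Finset.card_univ]
  have hc1 : I1.card = Fintype.card ι + 1 := by rw [hI1, Finset.card_insert_of_notMem hn1, hc0]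
  obtain ⟨s1, s2⟩ := ins_gen hpi hn1 (by
    intro j hj k hk hjk
    obtain ⟨j', rfl⟩ := hmem0 j hj
    obtain ⟨k', rfl⟩ := hmem0 k hk
    rw [hpl]
    exact P.not_mem h hQ true (by simpa using hjk))
  have hcol : A (Sum.inr false) ∈ pl A (Sum.inr true) (Sum.inl l) := by
    rw [pl, Submodule.mem_span_pair]
    refine ⟨1, -(2 * κ * ε), ?_⟩
    simp only [hA, trip, Sum.elim_inr, Sum.elim_inl]
    ext k
    fin_cases k
    · simp [vec, h.l0]
    · simp [vec, h.l1, sgn]; ring
    · simp [vec, h.l2]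
  have hother : ∀ k, k ≠ l → A (Sum.inr false) ∉ pl A (Sum.inr true) (Sum.inl k) := by
    intro k hkl
    apply not_mem_pl
    simp only [hA, trip, Sum.elim_inr, Sum.elim_inl]
    have e : dt (vec σ κ ε (sgn false)) (vec σ κ ε (sgn true)) (a k) =
        (2 * κ * ε) * (σ * ε * a k 2 - a k 0) := by
      simp only [dt, vec0, vec1, vec2, sgn_true, sgn_false]; ring
    rw [e]
    refine mul_ne_zero (by positivity) ?_
    by_cases hkd : k = d
    · rw [hkd, h.d0, h.d2, mul_one, sub_zero]
      have hσ0 : σ ≠ 0 := by rintro rfl; have := P.sq; simp at this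
      exact mul_ne_zero hσ0 hε.ne'
    · intro h0
      have h1 : |σ * ε * a k 2| = |a k 0| := by rw [show σ * ε * a k 2 = a k 0 by linarith]
      have hs : |σ| = 1 := by rcases P.hσ with h | h <;> rw [h] <;> norm_num
      rw [abs_mul, abs_mul, hs, abs_of_pos hε, one_mul] at h1
      have h2 := P.hg k hkl hkd
      have h3 := abs_pos.2 (h.alpha hkl hkd)
      linarith
  obtain ⟨s3, s4⟩ := ins_one (u := Sum.inr true) (w := Sum.inl l) hpi hn2
    (Finset.mem_insert_self _ _)
    (Finset.mem_insert_of_mem (by rw [hI0]; exact Finset.mem_map_of_mem _ (Finset.mem_univ l)))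
    (by simp) hcol (by
    intro j hj k hk hjk hin
    rcases Finset.mem_insert.1 hj with rfl | hj
    · rcases Finset.mem_insert.1 hk with rfl | hk
      · exact absurd rfl hjk
      · obtain ⟨k', rfl⟩ := hmem0 k hk
        by_cases hkl : k' = l
        · left; exact ⟨rfl, by rw [hkl]⟩
        · exact absurd hin (hother k' hkl)
    · obtain ⟨j', rfl⟩ := hmem0 j hj
      rcases Finset.mem_insert.1 hk with rfl | hk
      · by_cases hkl : j' = l
        · right; exact ⟨by rw [hkl], rfl⟩
        · rw [pl_comm] at hin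
          exact absurd hin (hother j' hkl)
      · obtain ⟨k', rfl⟩ := hmem0 k hk
        rw [hpl] at hin
        exact absurd hin (P.not_mem h hQ false (by simpa using hjk)))
  have m1 : sW A I0 = sW a Finset.univ := sW_map _ (fun _ => rfl) _
  have m2 : sR A I0 = sR a Finset.univ := sR_map _ (fun _ => rfl) _
  rw [huniv, s3, s4, s1, s2, m1, m2, hc0, hc1]
  constructor <;> omega

theorem Par.count_dbl (P : Par a l d σ κ ε) (h : Inv a l d) (hQ : Qg a d σ κ ε)
    (hs : s = 1 ∨ s = -1) :
    sW (dbl a σ κ ε s) Finset.univ = sW a Finset.univ + Fintype.card ι ∧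
      sR (dbl a σ κ ε s) Finset.univ = sR a Finset.univ := by
  classical
  set A := dbl a σ κ ε s with hA
  have hpi : PI A := (P.dblInv h hs).pi
  obtain ⟨b, hb⟩ : ∃ b : Bool, sgn b = -s := by
    rcases hs with h | h
    · exact ⟨false, by rw [h]; rfl⟩
    · exact ⟨true, by rw [h]; simp [sgn]⟩
  set I0 : Finset (ι ⊕ Unit) := Finset.univ.map Function.Embedding.inl with hI0
  have hmem0 : ∀ j, j ∈ I0 → ∃ i, j = Sum.inl i := by
    intro j hj
    rw [hI0, Finset.mem_map] at hj
    obtain ⟨i, -, rfl⟩ := hj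
    exact ⟨i, rfl⟩
  have hpl : ∀ i j : ι, pl A (Sum.inl i) (Sum.inl j) = pl a i j := fun i j => rfl
  have hn1 : Sum.inr () ∉ I0 := by
    intro h1; obtain ⟨i, hi⟩ := hmem0 _ h1; exact Sum.inr_ne_inl hi
  have huniv : (Finset.univ : Finset (ι ⊕ Unit)) = insert (Sum.inr ()) I0 := by
    ext j
    simp only [Finset.mem_univ, true_iff]
    rw [Finset.mem_insert]
    rcases j with j | b
    · right; rw [hI0, Finset.mem_map]; exact ⟨j, Finset.mem_univ _, rfl⟩
    · left; rfl
  have hc0 : I0.card = Fintype.card ι := by rw [hI0, Finset.card_map, Finset.card_univ]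
  obtain ⟨s1, s2⟩ := ins_gen hpi hn1 (by
    intro j hj k hk hjk
    obtain ⟨j', rfl⟩ := hmem0 j hj
    obtain ⟨k', rfl⟩ := hmem0 k hk
    rw [hpl]
    have := P.not_mem h hQ b (i := j') (j := k') (by simpa using hjk)
    rw [hb] at this
    exact this)
  have m1 : sW A I0 = sW a Finset.univ := sW_map _ (fun _ => rfl) _
  have m2 : sR A I0 = sR a Finset.univ := sR_map _ (fun _ => rfl) _
  rw [huniv, s1, s2, m1, m2, hc0]
  exact ⟨rfl, rfl⟩

/-- **The parameters exist.** -/
theorem Inv.exists_par (h : Inv a l d) (hσ : σ = 1 ∨ σ = -1) :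
    ∃ κ ε, Par a l d σ κ ε ∧ Qg a d σ κ ε := by
  obtain ⟨δ, hδ, hthin⟩ := h.thin
  set κ : ℝ := 1 + ∑ k, 2 * |a k 1| / |a k 0| with hκ
  have hterm : ∀ k ∈ (Finset.univ : Finset ι), 0 ≤ 2 * |a k 1| / |a k 0| := by
    intro k _; positivity
  have hκ1 : 1 ≤ κ := by
    rw [hκ]
    have := Finset.sum_nonneg hterm
    linarith
  have hκ0 : 0 < κ := by linarith
  have hb : ∀ k, k ≠ l → k ≠ d → 2 * |a k 1| ≤ κ * |a k 0| := by
    intro k hkl hkd
    have h1 := Finset.single_le_sum hterm (Finset.mem_univ k)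
    have h2 := abs_pos.2 (h.alpha hkl hkd)
    have h3 : 2 * |a k 1| / |a k 0| ≤ κ := by rw [hκ]; linarith
    rwa [div_le_iff₀ h2] at h3
  have ev1 : ∀ᶠ ε in nhdsWithin (0 : ℝ) (Set.Ioi 0), ∀ k, k ≠ l → k ≠ d →
      2 * ε * |a k 2| ≤ |a k 0| := by
    rw [Filter.eventually_all]
    intro k
    by_cases hk : k ≠ l ∧ k ≠ d
    · have h2 := abs_pos.2 (h.alpha hk.1 hk.2)
      have hc : Filter.Tendsto (fun ε : ℝ => 2 * ε * |a k 2|) (nhds 0) (nhds 0) := by
        have : Continuous fun ε : ℝ => 2 * ε * |a k 2| := by fun_prop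
        simpa using this.tendsto 0
      filter_upwards [mem_nhdsWithin_of_mem_nhds (hc.eventually (gt_mem_nhds h2))] with ε hε _ _
      exact le_of_lt hε
    · exact Filter.Eventually.of_forall fun ε h1 h2 => absurd ⟨h1, h2⟩ hk
  have ev2 : ∀ᶠ ε in nhdsWithin (0 : ℝ) (Set.Ioi 0), ε * (1 + κ) ≤ δ := by
    have hc : Filter.Tendsto (fun ε : ℝ => ε * (1 + κ)) (nhds 0) (nhds 0) := by
      have : Continuous fun ε : ℝ => ε * (1 + κ) := by fun_prop
      simpa using this.tendsto 0
    filter_upwards [mem_nhdsWithin_of_mem_nhds (hc.eventually (gt_mem_nhds hδ))] with ε hε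
    exact le_of_lt hε
  have ev3 : ∀ᶠ ε in nhdsWithin (0 : ℝ) (Set.Ioi 0), Qg a d σ κ ε := by
    unfold Qg
    rw [Filter.eventually_all]
    intro b
    rw [Filter.eventually_all]
    intro i
    rw [Filter.eventually_all]
    intro j
    by_cases hij : i ≠ j ∧ i ≠ d ∧ j ≠ d
    · have hm := h.minor i j hij.2.1 hij.2.2 hij.1
      have hc : Filter.Tendsto (fun ε : ℝ => dt (vec σ κ ε (sgn b)) (a i) (a j)) (nhds 0)
          (nhds (a i 0 * a j 1 - a i 1 * a j 0)) := by
        have h1 : Continuous fun ε : ℝ => dt (vec σ κ ε (sgn b)) (a i) (a j) := by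
          simp only [dt, vec0, vec1, vec2]; fun_prop
        have h2 := h1.tendsto 0
        have h3 : dt (vec σ κ 0 (sgn b)) (a i) (a j) = a i 0 * a j 1 - a i 1 * a j 0 := by
          simp only [dt, vec0, vec1, vec2]; ring
        rwa [h3] at h2
      filter_upwards [mem_nhdsWithin_of_mem_nhds (hc.eventually (isOpen_ne.mem_nhds hm))]
        with ε hε _ _ _ using hε
    · exact Filter.Eventually.of_forall fun ε h1 h2 h3 => absurd ⟨h1, h2, h3⟩ hij
  obtain ⟨ε, ⟨⟨h1, h2⟩, h3⟩, h4⟩ := (((ev1.and ev2).and ev3).and self_mem_nhdsWithin).exists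
  have hε : 0 < ε := h4
  refine ⟨κ, ε, ⟨hσ, hκ1, hε, hb, h1, fun x hg hx => hthin x hg (lt_of_lt_of_le hx ?_)⟩, h3⟩
  have n0 : |x 0| ≤ ‖x‖ := by
    have := PiLp.norm_apply_le x 0
    rwa [Real.norm_eq_abs] at this
  have n1 : |x 1| ≤ ‖x‖ := by
    have := PiLp.norm_apply_le x 1
    rwa [Real.norm_eq_abs] at this
  calc ε * (|x 0| + κ * |x 1|) ≤ ε * (‖x‖ + κ * ‖x‖) := by gcongr
    _ = ε * (1 + κ) * ‖x‖ := by ring
    _ ≤ δ * ‖x‖ := mul_le_mul_of_nonneg_right h2 (norm_nonneg _)

end Pool.Agent.helper89.Zono
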