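import Pool.Agent.helper89.Zono.Main

/-!
# Vertices of degree 3 of polyhedra with centrally symmetric faces

Every even `n ≥ 4` can be written in exactly one way as `n = N (N - 1) + 2 - 2 D` with
`0 ≤ D ≤ N - 2`.  Let `j` be the least natural number with `j² ≥ 2 D + 4 - N` and, if `D > 0`,
`j ≥ 1`.  Then `m n = 2 N + k` with `min (2 j) 4 ≤ k ≤ 2 j` and `9 k² - 4 k ≥ 4 (2 D + 4 - N)`.
In particular `m n` is known exactly if `j ≤ 2`, i.e. if `D ≤ N / 2`.
-/

namespace Pool.Agent.helper89.Zono.DegThree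

open Pool.Agent.helper50.Zono Pool.Agent.helper89.Zono

/-- `j` is the least natural number with `j² ≥ 2 D + 4 - N` and, if `D > 0`, `j ≥ 1`. -/
def IsJ (N D j : ℕ) : Prop := IsLeast {j : ℕ | min D 1 ≤ j ∧ 2 * D + 4 ≤ N + j * j} j

theorem isJ_pos {N D j : ℕ} (hD : 1 ≤ D) (h : IsJ N D j) :
    IsLeast {j : ℕ | 1 ≤ j ∧ 2 * D + 4 ≤ N + j * j} j := by
  unfold IsJ at h
  rwa [min_eq_right hD] at h

theorem exists_isJ (N D : ℕ) : ∃ j, IsJ N D j := by
  have hex : ∃ j : ℕ, min D 1 ≤ j ∧ 2 * D + 4 ≤ N + j * j :=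
    ⟨2 * D + 4, by omega, by nlinarith⟩
  classical
  exact ⟨Nat.find hex, Nat.find_spec hex, fun i hi => Nat.find_min' hex hi⟩

/-- **Result.** Exact values of `m n` for about half of all even `n` and two-sided bounds for all
even `n ≥ 244`. -/
theorem result :
    (∀ N D j : ℕ, D + 2 ≤ N → IsJ N D j → j * (j + 1) ≤ 2 * D →
      ∃ k, m (N * (N - 1) + 2 - 2 * D) = 2 * N + k ∧ min (2 * j) 4 ≤ k ∧ k ≤ 2 * j ∧
        4 * (2 * D + 4) + 4 * k ≤ 4 * N + 9 * (k * k)) ∧
    (∀ n, Even n → 244 ≤ n → ∃ N D j : ℕ, n = N * (N - 1) + 2 - 2 * D ∧ D + 2 ≤ N ∧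
      IsJ N D j ∧ j * (j + 1) ≤ 2 * D) ∧
    ∀ n, (ZClass n).Nonempty → Even n := by
  refine ⟨?_, ?_, fun n hn => even_of_nonempty hn⟩
  · intro N D j hD hj h1
    rcases Nat.eq_zero_or_pos D with h0 | h0
    · subst h0
      have hj0 : j = 0 := by
        rcases Nat.eq_zero_or_pos j with h2 | h2
        · exact h2
        · have := Nat.mul_le_mul h2 (Nat.succ_le_succ h2)
          simp at this h1
          omega
      subst hj0
      have hN : 4 ≤ N := by
        have := hj.1.2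
        omega
      refine ⟨0, ?_, by simp, by simp, by omega⟩
      rw [mul_zero, Nat.sub_zero, add_zero]
      exact exact_zero c1_all hN
    · have hj' := isJ_pos h0 hj
      obtain ⟨k, hk, h2, h3, h4⟩ := two_sided hj'.1.1 h1 hj'.1.2 hD
      refine ⟨k, hk, ?_, h3, by omega⟩
      rcases Nat.lt_or_ge j 2 with h5 | h5
      · omega
      · -- `j ≥ 2`, so `2 D + 4 > N + 1`
        have h6 : N < 2 * D + 3 := by
          by_contra h7
          push Not at h7
          have := hj'.2 (show 1 ∈ {j : ℕ | 1 ≤ j ∧ 2 * D + 4 ≤ N + j * j} from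
            ⟨le_rfl, by omega⟩)
          omega
        have h7 : 2 * N + 4 ≤ m (N * (N - 1) + 2 - 2 * D) :=
          le_m (exists_arr hj'.1.1 h1 hj'.1.2) fun N' a ha hn =>
            lower_two c1_all ha h6 hD h0 hn
        omega
  · intro n hn h
    obtain ⟨N, D, hD, hnN, -⟩ := exists_ND hn (by omega)
    obtain ⟨j, hj⟩ := exists_isJ N D
    refine ⟨N, D, j, hnN, hD, hj, ?_⟩
    have hN : 17 ≤ N := by
      by_contra h1
      push Not at h1
      have h2 : N * (N - 1) ≤ 16 * 15 := Nat.mul_le_mul (by omega) (by omega)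
      omega
    rcases Nat.eq_zero_or_pos D with h0 | h0
    · subst h0
      have : j = 0 := by
        have := hj.2 (show 0 ∈ {j : ℕ | min 0 1 ≤ j ∧ 2 * 0 + 4 ≤ N + j * j} from
          ⟨by simp, by omega⟩)
        omega
      subst this
      simp
    · exact (least_ok hN h0 hD (isJ_pos h0 hj)).2.1

end Pool.Agent.helper89.Zono.DegThree
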