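import Pool.Agent.helper89.Zono.Triple

/-!
# Doubling the line `d`
-/

open scoped RealInnerProductSpace

set_option linter.unusedSectionVars false

namespace Pool.Agent.helper89.Zono

open Pool.Agent.helper50.Zono

variable {ι : Type*} {a : ι → E3} {l d : ι} {σ κ ε s : ℝ}

/-- the new arrangement -/
noncomputable def dbl (a : ι → E3) (σ κ ε s : ℝ) : ι ⊕ Unit → E3 :=
  Sum.elim a (fun _ => vec σ κ ε (-s))

theorem ev_dbl (x : E3) : ev (dbl a σ κ ε s (Sum.inr ())) x =
    x 2 + ε * (σ * x 0 - s * κ * x 1) := by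
  rw [dbl, Sum.elim_inr, ev_vec]; ring

theorem gen_dbl {x : E3} (h : Gen (dbl a σ κ ε s) x) : Gen a x := fun i => h (Sum.inl i)

theorem flipd_inl {i : ι} {x y : E3} (h : Flip (dbl a σ κ ε s) (Sum.inl i) x y) : Flip a i x y :=
  ⟨h.1, fun j hj => h.2 (Sum.inl j) (by simpa using hj)⟩

theorem flipd_inr {x y : E3} (h : Flip (dbl a σ κ ε s) (Sum.inr ()) x y) : Same a x y :=
  fun j => h.2 (Sum.inl j) (by simp)

theorem Par.cones (P : Par a l d σ κ ε) (h : Inv a l d) (hs : s = 1 ∨ s = -1) {x : E3}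
    (hz : x 2 < 0) (h1 : 0 < ev (dbl a σ κ ε s (Sum.inr ())) x) (hy : 0 < s * x 1) :
    Sp a l d σ x := by
  refine P.cone h hz ?_
  rw [ev_dbl] at h1
  have : |x 1| = s * x 1 := by
    have hs1 : |s| = 1 := by rcases hs with h | h <;> rw [h] <;> norm_num
    rw [← abs_of_pos hy, abs_mul, hs1, one_mul]
  rw [this]
  linarith

theorem Par.thin_dbl (P : Par a l d σ κ ε) (hs : s = 1 ∨ s = -1) {x : E3} (hg : Gen a x)
    (h : x 2 * ev (dbl a σ κ ε s (Sum.inr ())) x < 0) : d ∈ Wl a x := by
  rcases hs with hs | hs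
  · refine P.thin_of hg (b := false) ?_
    rw [trip, Sum.elim_inr, ev_vec, sgn_false]
    rw [ev_dbl, hs] at h
    convert h using 3; ring
  · refine P.thin_of hg (b := true) ?_
    rw [trip, Sum.elim_inr, ev_vec, sgn_true]
    rw [ev_dbl, hs] at h
    convert h using 3; ring

/-- the special cell -/
def Spec (a : ι → E3) (l d : ι) (σ s : ℝ) (x : E3) : Prop :=
  Sp a l d (-σ) x ∧ s * x 1 < 0 ∧ 0 < x 2

theorem Par.conen (P : Par a l d σ κ ε) (h : Inv a l d) (hs : s = 1 ∨ s = -1) {y : E3}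
    (hz : 0 < y 2) (h1 : ev (dbl a σ κ ε s (Sum.inr ())) y < 0) (hy : s * y 1 < 0) :
    Sp a l d (-σ) y := by
  rw [← Sp.neg_iff]
  refine P.cones h hs (s := s) ?_ ?_ ?_
  · rw [PiLp.neg_apply]; linarith
  · rw [ev_neg]; linarith
  · rw [PiLp.neg_apply]; linarith

theorem Par.dblM [Finite ι] (P : Par a l d σ κ ε) (h : Inv a l d) (hs : s = 1 ∨ s = -1)
    (hD : Des a l d σ s) {x : E3} (hx : Gen (dbl a σ κ ε s) x) (hz : 0 < x 2)
    (hv : 0 < ev (dbl a σ κ ε s (Sum.inr ())) x) :
    (Wl (dbl a σ κ ε s) x).ncard ≤ max 4 (Wl a x).ncard ∨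
      (Spec a l d σ s x ∧ (Wl (dbl a σ κ ε s) x).ncard ≤ (Wl a x).ncard + 1) := by
  have hga := gen_dbl hx
  have hold : ∀ k, Sum.inl k ∈ Wl (dbl a σ κ ε s) x → k ∈ Wl a x := by
    rintro k ⟨y, hy⟩
    exact ⟨y, flipd_inl hy⟩
  have hall : (Wl (dbl a σ κ ε s) x).ncard ≤ (Wl a x).ncard + 1 := by
    have hsub : Wl (dbl a σ κ ε s) x ⊆ Sum.inl '' (Wl a x) ∪ {Sum.inr ()} := by
      rintro (k | b') hk
      · left; exact ⟨k, hold k hk, rfl⟩
      · right; rfl
    refine (Set.ncard_le_ncard hsub (Set.toFinite _)).trans ?_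
    refine (Set.ncard_union_le _ _).trans ?_
    rw [Set.ncard_image_of_injective _ Sum.inl_injective, Set.ncard_singleton]
  by_cases hvm : Sum.inr () ∈ Wl (dbl a σ κ ε s) x
  · obtain ⟨y, hy⟩ := hvm
    have hsm := flipd_inr hy
    have hyz : 0 < y 2 := by
      have := hsm d
      rw [h.ev_d, h.ev_d] at this
      exact (mul_pos_iff_of_pos_left hz).1 this
    have g1 : ev (dbl a σ κ ε s (Sum.inr ())) y < 0 := by
      have := hy.1
      by_contra h4
      push Not at h4
      nlinarith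
    have hd : d ∈ Wl a x := by
      rw [Wl_congr hsm]
      exact P.thin_dbl hs hsm.gen (mul_neg_of_pos_of_neg hyz g1)
    have hsl : 0 < x 1 * y 1 := by
      have := hsm l
      rwa [h.ev_l, h.ev_l] at this
    by_cases hdm : Sum.inl d ∈ Wl (dbl a σ κ ε s) x
    · obtain ⟨z, hzf⟩ := hdm
      have hf := flipd_inl hzf
      have hzz : z 2 < 0 := by
        have := hf.1
        rw [h.ev_d, h.ev_d] at this
        by_contra h4
        push Not at h4
        nlinarith
      have hzv : 0 < ev (dbl a σ κ ε s (Sum.inr ())) z :=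
        (mul_pos_iff_of_pos_left hv).1 (hzf.2 (Sum.inr ()) (by simp))
      have hzl : 0 < x 1 * z 1 := by
        have := hf.2 l h.ld
        rwa [h.ev_l, h.ev_l] at this
      have hs0 : s ≠ 0 := by rcases hs with h | h <;> rw [h] <;> norm_num
      have hx1 : x 1 ≠ 0 := by rintro h0; rw [h0, zero_mul] at hzl; exact lt_irrefl _ hzl
      rcases lt_or_gt_of_ne (mul_ne_zero hs0 hx1) with h5 | h5
      · right
        refine ⟨⟨?_, h5, hz⟩, hall⟩
        have h6 : Sp a l d (-σ) y := P.conen h hs hyz g1 (neg_trans h5 hsl)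
        exact h6.congr fun k _ _ => by rw [mul_comm]; exact hsm k
      · left
        have h6 : Sp a l d σ z := P.cones h hs hzz hzv (pos_trans h5 hzl)
        have h7 : Sp a l d σ x := h6.congr fun k _ h2 => by rw [mul_comm]; exact hf.2 k h2
        have h8 := hD x hga h7 h5 hz
        refine le_max_of_le_left (hall.trans (by omega))
    · left
      have hsub : Wl (dbl a σ κ ε s) x ⊆ Sum.inl '' (Wl a x \ {d}) ∪ {Sum.inr ()} := by
        rintro (k | b') hk
        · left
          refine ⟨k, ⟨hold k hk, ?_⟩, rfl⟩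
          rintro rfl
          exact hdm hk
        · right; rfl
      refine le_max_of_le_right ?_
      refine (Set.ncard_le_ncard hsub (Set.toFinite _)).trans ?_
      refine (Set.ncard_union_le _ _).trans ?_
      rw [Set.ncard_image_of_injective _ Sum.inl_injective, Set.ncard_singleton]
      have e1 := Set.ncard_sdiff_singleton_add_one hd (Set.toFinite _)
      omega
  · left
    have hsub : Wl (dbl a σ κ ε s) x ⊆ Sum.inl '' (Wl a x) := by
      rintro (k | b') hk
      · exact ⟨k, hold k hk, rfl⟩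
      · exact absurd hk hvm
    refine le_max_of_le_right ?_
    refine (Set.ncard_le_ncard hsub (Set.toFinite _)).trans ?_
    rw [Set.ncard_image_of_injective _ Sum.inl_injective]

theorem Par.dblF [Finite ι] (P : Par a l d σ κ ε) (h : Inv a l d) (hs : s = 1 ∨ s = -1)
    {x : E3} (hx : Gen (dbl a σ κ ε s) x) (hz : 0 < x 2)
    (hv : ev (dbl a σ κ ε s (Sum.inr ())) x < 0) :
    (Wl (dbl a σ κ ε s) x).ncard ≤ 4 := by
  have hga := gen_dbl hx
  have hd : d ∈ Wl a x := P.thin_dbl hs hga (mul_neg_of_pos_of_neg hz hv)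
  have hcard := h.card_Th hd
  have hsub : Wl (dbl a σ κ ε s) x ⊆ Sum.inl '' (Th a d x) ∪ {Sum.inl d, Sum.inr ()} := by
    rintro (k | b') hk
    · by_cases hkd : k = d
      · right; rw [hkd]; simp
      · left
        obtain ⟨y, hy⟩ := hk
        have hf := flipd_inl hy
        have hyz : 0 < y 2 := by
          have := hf.2 d (Ne.symm hkd)
          rw [h.ev_d, h.ev_d] at this
          exact (mul_pos_iff_of_pos_left hz).1 this
        have g2 : ev (dbl a σ κ ε s (Sum.inr ())) y < 0 := by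
          have := hy.2 (Sum.inr ()) (by simp)
          by_contra h4
          push Not at h4
          nlinarith
        exact ⟨k, ⟨hkd, y, hf, P.thin_dbl hs hf.gen (mul_neg_of_pos_of_neg hyz g2)⟩, rfl⟩
    · right; simp
  refine (Set.ncard_le_ncard hsub (Set.toFinite _)).trans ?_
  refine (Set.ncard_union_le _ _).trans ?_
  rw [Set.ncard_image_of_injective _ Sum.inl_injective]
  have e2 := Set.ncard_insert_le (Sum.inl d) ({Sum.inr ()} : Set (ι ⊕ Unit))
  rw [Set.ncard_singleton] at e2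
  omega

theorem Par.dblDes (P : Par a l d σ κ ε) (h : Inv a l d) (hs : s = 1 ∨ s = -1) :
    Des (dbl a σ κ ε s) (Sum.inl l) (Sum.inl d) (-σ) (-s) := by
  intro x hx hsp hsy hz
  have hε := P.hε
  have hvx : ev (dbl a σ κ ε s (Sum.inr ())) x < 0 := by
    have := hsp (Sum.inr ()) (by simp) (by simp)
    have h0 : dbl a σ κ ε s (Sum.inr ()) 0 = σ * ε := by rw [dbl, Sum.elim_inr, vec0]
    rw [h0] at this
    have h1 : -σ * (σ * ε) = -ε := by
      have := P.sq
      linear_combination (-ε) * this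
    rw [h1] at this
    by_contra h4
    push Not at h4
    nlinarith
  refine ncard_three (a := Sum.inl l) (b := Sum.inl d) (c := Sum.inr ()) ?_
  rintro (k | b) ⟨y, hy⟩
  · by_cases hkl : k = l
    · left; rw [hkl]
    by_cases hkd : k = d
    · right; left; rw [hkd]
    exfalso
    have hf := flipd_inl hy
    have hyz : 0 < y 2 := by
      have := hf.2 d (Ne.symm hkd)
      rw [h.ev_d, h.ev_d] at this
      exact (mul_pos_iff_of_pos_left hz).1 this
    have hyl : 0 < x 1 * y 1 := by
      have := hf.2 l (Ne.symm hkl)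
      rwa [h.ev_l, h.ev_l] at this
    have g2 : ev (dbl a σ κ ε s (Sum.inr ())) y < 0 := by
      have := hy.2 (Sum.inr ()) (by simp)
      by_contra h4
      push Not at h4
      nlinarith
    have h5 : s * y 1 < 0 := neg_trans (by linarith : s * x 1 < 0) hyl
    have h6 := P.conen h hs hyz g2 h5
    have h7 : Sp a l d (-σ) x := fun k h1 h2 => hsp (Sum.inl k) (by simpa using h1) (by simpa using h2)
    have := h7.mul_pos h6 hkl hkd
    have h8 := hf.1
    linarith
  · right; right; rfl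

theorem Par.dblInv (P : Par a l d σ κ ε) (h : Inv a l d) (hs : s = 1 ∨ s = -1) :
    Inv (dbl a σ κ ε s) (Sum.inl l) (Sum.inl d) := by
  have hi := P.inv h
  obtain ⟨b, hb⟩ : ∃ b : Bool, sgn b = -s := by
    rcases hs with h | h
    · exact ⟨false, by rw [h]; rfl⟩
    · exact ⟨true, by rw [h]; simp [sgn]⟩
  have he : ∀ j : ι ⊕ Unit, dbl a σ κ ε s j = trip a σ κ ε (Sum.map id (fun _ => b) j) := by
    rintro (j | j)
    · rfl
    · simp only [dbl, trip, Sum.map_inr, Sum.elim_inr, hb]
  have hinj : Function.Injective (Sum.map (id : ι → ι) (fun _ : Unit => b)) :=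
    Sum.map_injective.2 ⟨Function.injective_id, fun _ _ _ => rfl⟩
  refine ⟨by simpa using h.ld, h.l0, h.l1, h.l2, h.d0, h.d1, h.d2, ?_, ?_⟩
  · intro i j h1 h2 h3
    rw [he, he]
    refine hi.minor _ _ ?_ ?_ (hinj.ne h3)
    · intro h4; exact h1 (hinj h4)
    · intro h4; exact h2 (hinj h4)
  · obtain ⟨i, h1, h2⟩ := h.ex
    exact ⟨Sum.inl i, by simpa using h1, by simpa using h2⟩

end Pool.Agent.helper89.Zono
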