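import Pool.Agent.helper89.Zono.Double

/-!
# The sum of the excesses `(number of walls) - 4`
-/

open scoped RealInnerProductSpace

set_option linter.unusedSectionVars false

namespace Pool.Agent.helper89.Zono

open Pool.Agent.helper50.Zono

variable {ι : Type*} [Fintype ι] [DecidableEq ι]

/-- `S` is the positive set of `x` -/
def Rep (a : ι → E3) (S : Finset ι) (x : E3) : Prop :=
  Gen a x ∧ ∀ i, i ∈ S ↔ 0 < ev (a i) x

theorem isTope_iff_rep {a : ι → E3} {S : Finset ι} : IsTope a S ↔ ∃ x, Rep a S x := by
  constructor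
  · rintro ⟨x, h1, h2⟩
    simp only [inner_eq_ev] at h1 h2
    refine ⟨x, fun i => ?_, fun i => ⟨h1 i, fun h => ?_⟩⟩
    · by_cases hi : i ∈ S
      · exact (h1 i hi).ne'
      · exact (h2 i hi).ne
    · by_contra hi
      have := h2 i hi
      linarith
  · rintro ⟨x, h1, h2⟩
    refine ⟨x, fun i hi => ?_, fun i hi => ?_⟩
    · rw [inner_eq_ev]; exact (h2 i).1 hi
    · rw [inner_eq_ev]
      exact lt_of_le_of_ne (not_lt.1 fun h => hi ((h2 i).2 h)) (h1 i)

theorem Rep.walls_eq {a : ι → E3} {S : Finset ι} {x : E3} (h : Rep a S x) :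
    (walls a S : Set ι) = Wl a x := by
  ext i
  rw [Finset.mem_coe, mem_walls, isTope_iff_rep]
  constructor
  · rintro ⟨y, hg, hy⟩
    refine ⟨y, ?_, fun j hj => ?_⟩
    · have h1 := h.2 i
      have h2 := hy i
      rw [Finset.mem_symmDiff, Finset.mem_singleton] at h2
      have h3 := h.1 i
      have h4 := hg i
      by_cases hi : i ∈ S
      · have h5 := h1.1 hi
        have h6 : ¬ 0 < ev (a i) y := fun h7 => by have := h2.2 h7; tauto
        have h7 : ev (a i) y < 0 := lt_of_le_of_ne (not_lt.1 h6) h4
        exact mul_neg_of_pos_of_neg h5 h7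
      · have h5 : ev (a i) x < 0 := lt_of_le_of_ne (not_lt.1 fun h7 => hi (h1.2 h7)) h3
        have h6 : 0 < ev (a i) y := h2.1 (by tauto)
        exact mul_neg_of_neg_of_pos h5 h6
    · have h1 := h.2 j
      have h2 := hy j
      rw [Finset.mem_symmDiff, Finset.mem_singleton] at h2
      have h3 := h.1 j
      have h4 := hg j
      by_cases hi : j ∈ S
      · have h5 := h1.1 hi
        have h6 : 0 < ev (a j) y := h2.1 (by tauto)
        exact mul_pos h5 h6
      · have h5 : ev (a j) x < 0 := lt_of_le_of_ne (not_lt.1 fun h7 => hi (h1.2 h7)) h3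
        have h6 : ¬ 0 < ev (a j) y := fun h7 => by have := h2.2 h7; tauto
        have h7 : ev (a j) y < 0 := lt_of_le_of_ne (not_lt.1 h6) h4
        exact mul_pos_of_neg_of_neg h5 h7
  · rintro ⟨y, hy⟩
    refine ⟨y, hy.gen, fun j => ?_⟩
    have h1 := h.2 j
    have h3 := h.1 j
    have h4 := hy.gen j
    rw [Finset.mem_symmDiff, Finset.mem_singleton]
    by_cases hj : j = i
    · subst hj
      have h5 := hy.1
      by_cases hi : j ∈ S
      · have h6 := h1.1 hi
        have h7 : ¬ 0 < ev (a j) y := fun h7 => by have := mul_pos h6 h7; linarith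
        tauto
      · have h6 : ev (a j) x < 0 := lt_of_le_of_ne (not_lt.1 fun h7 => hi (h1.2 h7)) h3
        have h7 : 0 < ev (a j) y := by
          by_contra h8
          push Not at h8
          nlinarith
        tauto
    · have h5 := hy.2 j hj
      by_cases hi : j ∈ S
      · have h6 := (mul_pos_iff_of_pos_left (h1.1 hi)).1 h5
        tauto
      · have h6 : ev (a j) x < 0 := lt_of_le_of_ne (not_lt.1 fun h7 => hi (h1.2 h7)) h3
        have h7 : ¬ 0 < ev (a j) y := fun h7 => by nlinarith
        tauto

theorem Rep.card {a : ι → E3} {S : Finset ι} {x : E3} (h : Rep a S x) :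
    (walls a S).card = (Wl a x).ncard := by
  rw [← h.walls_eq, Set.ncard_coe_finset]

/-- the total excess -/
noncomputable def exc (a : ι → E3) : ℕ := ∑ S ∈ topes a, ((walls a S).card - 4)

theorem Four.exc {a : ι → E3} (h : Four a) : exc a = 0 := by
  unfold Zono.exc
  refine Finset.sum_eq_zero fun S hS => ?_
  obtain ⟨x, hx⟩ := isTope_iff_rep.1 (mem_topes'.1 hS)
  rw [hx.card]
  have := h x hx.1
  omega

theorem Par.exc_dbl {a : ι → E3} {l d : ι} {σ κ ε s : ℝ} (P : Par a l d σ κ ε) (h : Inv a l d)
    (hs : s = 1 ∨ s = -1) (hD : Des a l d σ s) : exc (dbl a σ κ ε s) ≤ exc a + 2 := by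
  classical
  set A := dbl a σ κ ε s with hA
  set down : Finset (ι ⊕ Unit) → Finset ι := fun T => Finset.univ.filter (fun i => Sum.inl i ∈ T)
    with hdown
  have hmem : ∀ T i, i ∈ down T ↔ Sum.inl i ∈ T := by intro T i; simp [hdown]
  have hrep : ∀ {T x}, Rep A T x → Rep a (down T) x := by
    intro T x hx
    refine ⟨gen_dbl hx.1, fun i => ?_⟩
    rw [hmem]
    exact hx.2 (Sum.inl i)
  -- the two special cells
  set S1 : Finset ι := Finset.univ.filter
    (fun k => if k = d then True else if k = l then 0 < -s else 0 < -σ * a k 0) with hS1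
  set S2 : Finset ι := Finset.univ.filter
    (fun k => if k = d then False else if k = l then 0 < s else 0 < σ * a k 0) with hS2
  have hspec1 : ∀ {S x}, Rep a S x → Spec a l d σ s x → S = S1 := by
    rintro S x hx ⟨h1, h2, h3⟩
    ext k
    rw [hx.2, hS1, Finset.mem_filter]
    simp only [Finset.mem_univ, true_and]
    by_cases hkd : k = d
    · rw [if_pos hkd, hkd, h.ev_d]; simp [h3]
    · rw [if_neg hkd]
      by_cases hkl : k = l
      · rw [if_pos hkl, hkl, h.ev_l]
        rcases hs with rfl | rfl
        · constructor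
          · intro h5; linarith
          · intro h5; linarith
        · constructor
          · intro h5; linarith
          · intro h5; linarith
      · rw [if_neg hkl]
        have h5 := h1 k hkl hkd
        constructor
        · intro h6
          exact (mul_pos_iff_of_pos_right h6).1 h5
        · intro h6
          exact (mul_pos_iff_of_pos_left h6).1 h5
  have hspec2 : ∀ {S x}, Rep a S x → Spec a l d σ s (-x) → S = S2 := by
    rintro S x hx ⟨h1, h2, h3⟩
    rw [PiLp.neg_apply] at h2 h3
    ext k
    rw [hx.2, hS2, Finset.mem_filter]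
    simp only [Finset.mem_univ, true_and]
    by_cases hkd : k = d
    · rw [if_pos hkd, hkd, h.ev_d]
      constructor
      · intro h5; linarith
      · intro h5; exact h5.elim
    · rw [if_neg hkd]
      by_cases hkl : k = l
      · rw [if_pos hkl, hkl, h.ev_l]
        rcases hs with rfl | rfl
        · constructor
          · intro h5; linarith
          · intro h5; linarith
        · constructor
          · intro h5; linarith
          · intro h5; linarith
      · rw [if_neg hkl]
        have h5 := h1 k hkl hkd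
        rw [ev_neg] at h5
        have h5' : 0 < (σ * a k 0) * ev (a k) x := by linarith
        constructor
        · intro h6
          exact (mul_pos_iff_of_pos_right h6).1 h5'
        · intro h6
          exact (mul_pos_iff_of_pos_left h6).1 h5'
  set f : Finset ι → ℕ := fun S => ((walls a S).card - 4) + if S = S1 ∨ S = S2 then 1 else 0
    with hf
  set M : Finset (Finset (ι ⊕ Unit)) :=
    (topes A).filter (fun T => Sum.inl d ∈ T ↔ Sum.inr () ∈ T) with hM
  -- bound on the main cells
  have key : ∀ x, Gen A x → 0 < x 2 → 0 < ev (A (Sum.inr ())) x →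
      (Wl A x).ncard ≤ max 4 (Wl a x).ncard ∨
      (Spec a l d σ s x ∧ (Wl A x).ncard ≤ (Wl a x).ncard + 1) := fun x hx h1 h2 =>
    P.dblM h hs hD hx h1 h2
  have hmain : ∀ T ∈ M, (walls A T).card - 4 ≤ f (down T) := by
    intro T hT
    rw [hM, Finset.mem_filter, mem_topes', isTope_iff_rep] at hT
    obtain ⟨⟨x, hx⟩, hiff⟩ := hT
    have hxa := hrep hx
    rw [hx.2, hx.2] at hiff
    have hd' : ev (A (Sum.inl d)) x = x 2 := h.ev_d x
    rw [hd'] at hiff
    have hgd : x 2 ≠ 0 := by rw [← hd']; exact hx.1 (Sum.inl d)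
    have hgv := hx.1 (Sum.inr ())
    rw [hx.card, hf]
    simp only
    rw [hxa.card]
    rcases lt_or_gt_of_ne hgd with hz | hz
    · have hv : ev (A (Sum.inr ())) x < 0 :=
        lt_of_le_of_ne (not_lt.1 fun h5 => by have := hiff.2 h5; linarith) hgv
      have h6 := key (-x) hx.1.neg (by rw [PiLp.neg_apply]; linarith) (by rw [ev_neg]; linarith)
      rw [Wl_neg, Wl_neg] at h6
      rcases h6 with h6 | ⟨h6, h7⟩
      · rcases le_max_iff.1 h6 with h8 | h8
        · omega
        · omega
      · rw [if_pos (Or.inr (hspec2 hxa h6))]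
        omega
    · have hv : 0 < ev (A (Sum.inr ())) x := hiff.1 hz
      have h6 := key x hx.1 hz hv
      rcases h6 with h6 | ⟨h6, h7⟩
      · rcases le_max_iff.1 h6 with h8 | h8
        · omega
        · omega
      · rw [if_pos (Or.inl (hspec1 hxa h6))]
        omega
  have hthin : ∀ T ∈ topes A, T ∉ M → (walls A T).card - 4 = 0 := by
    intro T hT hTM
    have hT' := hT
    rw [mem_topes', isTope_iff_rep] at hT'
    obtain ⟨x, hx⟩ := hT'
    have hiff : ¬ (0 < x 2 ↔ 0 < ev (A (Sum.inr ())) x) := by
      intro h5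
      apply hTM
      rw [hM, Finset.mem_filter]
      refine ⟨hT, ?_⟩
      rw [hx.2, hx.2]
      have hd' : ev (A (Sum.inl d)) x = x 2 := h.ev_d x
      rw [hd']
      exact h5
    have hd' : ev (A (Sum.inl d)) x = x 2 := h.ev_d x
    have hgd : x 2 ≠ 0 := by rw [← hd']; exact hx.1 (Sum.inl d)
    have hgv := hx.1 (Sum.inr ())
    rw [hx.card]
    rcases lt_or_gt_of_ne hgd with hz | hz
    · have hv : 0 < ev (A (Sum.inr ())) x := by
        by_contra h5
        exact hiff ⟨fun h6 => by linarith, fun h6 => absurd h6 h5⟩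
      have h6 := P.dblF h hs (x := -x) hx.1.neg (by rw [PiLp.neg_apply]; linarith)
        (by rw [ev_neg]; linarith)
      rw [Wl_neg] at h6
      change (Wl A x).ncard ≤ 4 at h6
      omega
    · have hv : ev (A (Sum.inr ())) x < 0 := by
        refine lt_of_le_of_ne (not_lt.1 fun h5 => ?_) hgv
        exact hiff ⟨fun _ => h5, fun _ => hz⟩
      have h6 := P.dblF h hs (x := x) hx.1 hz hv
      change (Wl A x).ncard ≤ 4 at h6
      omega
  have hinj : Set.InjOn down (M : Set (Finset (ι ⊕ Unit))) := by
    intro T hT T' hT' heq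
    rw [Finset.mem_coe, hM, Finset.mem_filter] at hT hT'
    have h1 : ∀ i, Sum.inl i ∈ T ↔ Sum.inl i ∈ T' := by
      intro i
      rw [← hmem, ← hmem, heq]
    ext j
    rcases j with j | ⟨⟩
    · exact h1 j
    · rw [← hT.2, ← hT'.2, h1]
  have himg : M.image down ⊆ topes a := by
    intro S hS
    obtain ⟨T, hT, rfl⟩ := Finset.mem_image.1 hS
    rw [hM, Finset.mem_filter, mem_topes', isTope_iff_rep] at hT
    obtain ⟨⟨x, hx⟩, -⟩ := hT
    rw [mem_topes', isTope_iff_rep]
    exact ⟨x, hrep hx⟩
  calc exc A = ∑ T ∈ M, ((walls A T).card - 4) := by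
        unfold Zono.exc
        symm
        refine Finset.sum_subset (Finset.filter_subset _ _) fun T hT hTM => hthin T hT hTM
    _ ≤ ∑ T ∈ M, f (down T) := Finset.sum_le_sum hmain
    _ = ∑ S ∈ M.image down, f S := (Finset.sum_image hinj).symm
    _ ≤ ∑ S ∈ topes a, f S := Finset.sum_le_sum_of_subset himg
    _ = exc a + ∑ S ∈ topes a, (if S = S1 ∨ S = S2 then 1 else 0) := by
        rw [hf, Finset.sum_add_distrib]; rfl
    _ ≤ exc a + 2 := by
        refine Nat.add_le_add_left ?_ _
        rw [← Finset.card_filter]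
        calc ((topes a).filter (fun S => S = S1 ∨ S = S2)).card ≤ ({S1, S2} : Finset _).card := by
              refine Finset.card_le_card fun S hS => ?_
              have := (Finset.mem_filter.1 hS).2
              simpa using this
          _ ≤ 2 := Finset.card_le_two

end Pool.Agent.helper89.Zono
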