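import Pool.Agent.helper89.Zono.Base

/-!
# The family of arrangements giving the upper bound
-/

open scoped RealInnerProductSpace

set_option linter.unusedSectionVars false

namespace Pool.Agent.helper89.Zono

open Pool.Agent.helper50.Zono

/-- after `m` triplings -/
theorem fam_trip (j : ℕ) (hj : 1 ≤ j) (m : ℕ) :
    ∃ (ι : Type) (_ : Fintype ι) (_ : DecidableEq ι) (a : ι → E3) (l d : ι) (σ : ℝ),
      Inv a l d ∧ (σ = 1 ∨ σ = -1) ∧ Four a ∧ (∀ s, (s = 1 ∨ s = -1) → Des a l d σ s) ∧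
      Fintype.card ι = 2 * m + j + 4 ∧
      2 * sW a Finset.univ + j * (j + 1) + 2 * m = (2 * m + j + 4) * (2 * m + j + 3) ∧
      sR a Finset.univ = j + m := by
  induction m with
  | zero =>
    refine ⟨Fin (j + 1) ⊕ Fin 3, inferInstance, inferInstance, base j, Sum.inr 0, Sum.inr 1, -1,
      base_inv j, Or.inr rfl, base_four j, ?_, ?_, ?_, ?_⟩
    · rintro s (rfl | rfl)
      · exact base_des1 j
      · exact base_des2 j hj
    · simp
    · rw [(base_count j).1]; ring
    · rw [(base_count j).2]; rfl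
  | succ m ih =>
    obtain ⟨ι, i1, i2, a, l, d, σ, h, hσ, hF, hD, hc, hW, hR⟩ := ih
    obtain ⟨κ, ε, P, hQ⟩ := h.exists_par hσ
    obtain ⟨cW, cR⟩ := P.count_trip h hQ
    refine ⟨ι ⊕ Bool, inferInstance, inferInstance, trip a σ κ ε, Sum.inl l, Sum.inl d, -σ,
      P.inv h, ?_, P.four h hF hD, fun s _ => P.des h s, ?_, ?_, ?_⟩
    · rcases hσ with h | h
      · right; rw [h]
      · left; rw [h]; norm_num
    · rw [Fintype.card_sum, hc, Fintype.card_bool]; ring
    · rw [cW, hc]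
      zify at hW ⊢
      linear_combination hW
    · rw [cR, hR]; ring

/-- after `q` doublings -/
theorem fam_dbl {ι : Type} [Fintype ι] [DecidableEq ι] {a : ι → E3} {l d : ι} {σ s : ℝ}
    (h : Inv a l d) (hσ : σ = 1 ∨ σ = -1) (hs : s = 1 ∨ s = -1) (hD : Des a l d σ s)
    (he : exc a = 0) (q : ℕ) :
    ∃ (ι' : Type) (_ : Fintype ι') (_ : DecidableEq ι') (a' : ι' → E3) (l' d' : ι') (σ' s' : ℝ),
      Inv a' l' d' ∧ (σ' = 1 ∨ σ' = -1) ∧ (s' = 1 ∨ s' = -1) ∧ Des a' l' d' σ' s' ∧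
      Fintype.card ι' = Fintype.card ι + q ∧
      2 * sW a' Finset.univ + Fintype.card ι * (Fintype.card ι - 1) =
        2 * sW a Finset.univ + (Fintype.card ι + q) * (Fintype.card ι + q - 1) ∧
      sR a' Finset.univ = sR a Finset.univ ∧ exc a' ≤ 2 * q := by
  have hpos : 0 < Fintype.card ι := Fintype.card_pos_iff.2 ⟨l⟩
  induction q with
  | zero =>
    exact ⟨ι, inferInstance, inferInstance, a, l, d, σ, s, h, hσ, hs, hD, rfl, rfl, rfl, by rw [he]⟩
  | succ q ih =>
    obtain ⟨ι', i1, i2, a', l', d', σ', s', h', hσ', hs', hD', hc, hW, hR, he'⟩ := ih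
    obtain ⟨κ, ε, P, hQ⟩ := h'.exists_par hσ'
    obtain ⟨cW, cR⟩ := P.count_dbl h' hQ hs'
    have hee := P.exc_dbl h' hs' hD'
    refine ⟨ι' ⊕ Unit, inferInstance, inferInstance, dbl a' σ' κ ε s', Sum.inl l', Sum.inl d',
      -σ', -s', P.dblInv h' hs', ?_, ?_, P.dblDes h' hs', ?_, ?_, ?_, ?_⟩
    · rcases hσ' with h | h
      · right; rw [h]
      · left; rw [h]; norm_num
    · rcases hs' with h | h
      · right; rw [h]
      · left; rw [h]; norm_num
    · rw [Fintype.card_sum, hc, Fintype.card_unit]; ring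
    · rw [cW, hc]
      obtain ⟨N, hN⟩ : ∃ N, Fintype.card ι = N + 1 := ⟨Fintype.card ι - 1, by omega⟩
      rw [hN] at hW ⊢
      have e1 : N + 1 + q - 1 = N + q := by omega
      have e2 : N + 1 + (q + 1) - 1 = N + q + 1 := by omega
      have e3 : N + 1 - 1 = N := by omega
      rw [e1, e3] at hW
      rw [e2, e3]
      zify at hW ⊢
      linear_combination hW
    · rw [cR, hR]
    · omega

/-- the number of cells and of triangles -/
theorem final {ι : Type} [Fintype ι] [DecidableEq ι] {a : ι → E3} {l d : ι} (h : Inv a l d) :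
    (topes a).card = 2 * (1 + sW a Finset.univ) ∧
      tri a = 8 + 4 * sR a Finset.univ + exc a := by
  have hc : 2 ≤ Fintype.card ι := Fintype.one_lt_card_iff.2 ⟨l, d, h.ld⟩
  refine ⟨card_topes h.pi hc, ?_⟩
  have h1 := tri_euler h.arr hc
  have h2 : ∑ q ∈ planes a Finset.univ, ((mult a Finset.univ q : ℤ) - 2) =
      (sR a Finset.univ : ℤ) := by
    unfold sR
    push_cast
    refine Finset.sum_congr rfl fun q hq => ?_
    have := two_le_mult hq
    push_cast [Nat.cast_sub this]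
    ring
  have h3 : ∑ S ∈ topes a, (((walls a S).card - 4 : ℕ) : ℤ) = (exc a : ℤ) := by
    unfold exc
    push_cast
    rfl
  rw [h2, h3] at h1
  exact_mod_cast h1

section transfer

variable {ι κ : Type*} [Fintype ι] [DecidableEq ι] [Fintype κ] [DecidableEq κ]

theorem isTope_comp (e : κ ≃ ι) (a : ι → E3) (S : Finset κ) :
    IsTope (a ∘ e) S ↔ IsTope a (S.map e.toEmbedding) := by
  constructor
  · rintro ⟨x, h1, h2⟩
    refine ⟨x, fun i hi => ?_, fun i hi => ?_⟩
    · rw [Finset.mem_map] at hi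
      obtain ⟨k, hk, rfl⟩ := hi
      exact h1 k hk
    · have := h2 (e.symm i) (fun hk => hi (by
        rw [Finset.mem_map]; exact ⟨e.symm i, hk, by simp⟩))
      simpa using this
  · rintro ⟨x, h1, h2⟩
    refine ⟨x, fun i hi => h1 _ (Finset.mem_map_of_mem _ hi), fun i hi => ?_⟩
    refine h2 _ fun h3 => hi ?_
    rw [Finset.mem_map] at h3
    obtain ⟨k, hk, hk'⟩ := h3
    have : k = i := e.injective hk'
    rwa [← this]

theorem walls_comp (e : κ ≃ ι) (a : ι → E3) (S : Finset κ) :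
    (walls (a ∘ e) S).card = (walls a (S.map e.toEmbedding)).card := by
  refine Finset.card_equiv e fun i => ?_
  rw [mem_walls, mem_walls, isTope_comp]
  have : (symmDiff S {i}).map e.toEmbedding = symmDiff (S.map e.toEmbedding) {e i} := by
    ext j
    simp only [Finset.mem_map, Finset.mem_symmDiff, Finset.mem_singleton]
    constructor
    · rintro ⟨k, hk, rfl⟩
      rcases hk with ⟨h1, h2⟩ | ⟨h1, h2⟩
      · left; exact ⟨⟨k, h1, rfl⟩, fun h => h2 (e.injective h)⟩
      · right; exact ⟨by rw [h1]; rfl, fun ⟨k', h3, h4⟩ => h2 (by rwa [← e.injective h4])⟩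
    · rintro (⟨⟨k, h1, rfl⟩, h2⟩ | ⟨rfl, h2⟩)
      · exact ⟨k, Or.inl ⟨h1, fun h => h2 (by rw [h]; rfl)⟩, rfl⟩
      · exact ⟨i, Or.inr ⟨rfl, fun h => h2 ⟨i, h, rfl⟩⟩, rfl⟩
  rw [this]

theorem card_topes_comp (e : κ ≃ ι) (a : ι → E3) : (topes (a ∘ e)).card = (topes a).card := by
  refine Finset.card_equiv (Equiv.finsetCongr e) fun S => ?_
  rw [mem_topes', mem_topes', isTope_comp]
  rfl

theorem tri_comp (e : κ ≃ ι) (a : ι → E3) : tri (a ∘ e) = tri a := by
  unfold tri
  refine Finset.card_equiv (Equiv.finsetCongr e) fun S => ?_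
  rw [Finset.mem_filter, Finset.mem_filter, mem_topes', mem_topes', isTope_comp, walls_comp]
  rfl

theorem isArr_comp (e : κ ≃ ι) {a : ι → E3} (h : IsArr a) : IsArr (a ∘ e) := by
  refine ⟨fun i j hij => h.indep (e i) (e j) (e.injective.ne hij), ?_⟩
  rw [Set.range_comp, e.range_eq_univ, Set.image_univ]
  exact h.span

end transfer

/-- **The family**, `j ≥ 1`: `N = 2m + j + 4 + q` planes, `D = j(j+1)/2 + m`. -/
theorem family (m j q : ℕ) (hj : 1 ≤ j) :
    ∃ a : Fin (2 * m + j + 4 + q) → E3, IsArr a ∧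
      (topes a).card + j * (j + 1) + 2 * m =
        2 + (2 * m + j + 4 + q) * (2 * m + j + 3 + q) ∧
      tri a ≤ 2 * (2 * m + j + 4 + q + j) := by
  obtain ⟨ι, i1, i2, a, l, d, σ, h, hσ, hF, hD, hc, hW, hR⟩ := fam_trip j hj m
  obtain ⟨ι', i1', i2', a', l', d', σ', s', h', -, -, -, hc', hW', hR', he'⟩ :=
    fam_dbl h hσ (Or.inl rfl) (hD 1 (Or.inl rfl)) hF.exc q
  obtain ⟨f1, f2⟩ := final h'
  have hcard : Fintype.card ι' = 2 * m + j + 4 + q := by rw [hc', hc]
  set e : Fin (2 * m + j + 4 + q) ≃ ι' := (Fintype.equivFinOfCardEq hcard).symm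
  refine ⟨a' ∘ e, isArr_comp e h'.arr, ?_, ?_⟩
  · rw [card_topes_comp, f1]
    rw [hc] at hW'
    have e1 : 2 * m + j + 4 - 1 = 2 * m + j + 3 := by omega
    have e2 : 2 * m + j + 4 + q - 1 = 2 * m + j + 3 + q := by omega
    rw [e1, e2] at hW'
    zify at hW hW' ⊢
    linear_combination hW + hW'
  · rw [tri_comp, f2, hR', hR]
    omega

/-- **The family**, `D = 0`. -/
theorem family0 (q : ℕ) :
    ∃ a : Fin (4 + q) → E3, IsArr a ∧
      (topes a).card = 2 + (4 + q) * (3 + q) ∧ tri a ≤ 2 * (4 + q) := by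
  obtain ⟨ι', i1', i2', a', l', d', σ', s', h', -, -, -, hc', hW', hR', he'⟩ :=
    fam_dbl (base_inv 0) (Or.inr rfl) (Or.inl rfl) (base_des1 0) (base_four 0).exc q
  obtain ⟨f1, f2⟩ := final h'
  have hc : Fintype.card (Fin (0 + 1) ⊕ Fin 3) = 4 := by simp
  have hcard : Fintype.card ι' = 4 + q := by rw [hc', hc]
  set e : Fin (4 + q) ≃ ι' := (Fintype.equivFinOfCardEq hcard).symm
  refine ⟨a' ∘ e, isArr_comp e h'.arr, ?_, ?_⟩
  · rw [card_topes_comp, f1]
    rw [hc, (base_count 0).1] at hW'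
    have e2 : 4 + q - 1 = 3 + q := by omega
    rw [e2] at hW'
    zify at hW' ⊢
    linear_combination hW'
  · rw [tri_comp, f2, hR', (base_count 0).2]
    omega

end Pool.Agent.helper89.Zono
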