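import Pool.Agent.helper50.Zono.Lower

/-!
# Few lines through a vertex bound few triangles

Through every vertex there are at most two lines with fewer than four triangles, and every line
bounds at least three triangles.
-/

open scoped RealInnerProductSpace

set_option linter.unusedSectionVars false

namespace Pool.Agent.helper89.Zono

open Pool.Agent.helper50.Zono

variable {ι : Type*} [DecidableEq ι] [Fintype ι]

theorem cen_few {a : ι → E3} {v : E3} (h : Cen a v) (hk : 2 ≤ (KK a v).card)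
    (hM : ∃ b, b ∉ KK a v) :
    ((KK a v).filter (fun x => tw a x < 8)).card ≤ 2 ∧ ∀ x ∈ KK a v, 6 ≤ tw a x := by
  classical
  choose D hD1 hD2 hD3 using h.exists_dir
  have hDd : ∀ z ∈ KK a v, Dir a v z (D z) := fun z hz => ⟨hz, hD1 z, hD2 z, hD3 z⟩
  have hgp : ∀ x, ∃ y Y, x ∈ KK a v → Gap a v x y (D x) Y ∧ Dir a v y Y ∧
      0 < 1 * det3 v (D x) Y := by
    intro x
    by_cases hx : x ∈ KK a v
    · obtain ⟨y, Y, h1, h2, h3⟩ := exists_gap h hk (hDd x hx) (Or.inl rfl : Sgn 1)
      exact ⟨y, Y, fun _ => ⟨h1, h2, h3⟩⟩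
    · exact ⟨x, 0, fun h' => absurd h' hx⟩
  have hgm : ∀ x, ∃ y Y, x ∈ KK a v → Gap a v x y (D x) Y ∧ Dir a v y Y ∧
      0 < -1 * det3 v (D x) Y := by
    intro x
    by_cases hx : x ∈ KK a v
    · obtain ⟨y, Y, h1, h2, h3⟩ := exists_gap h hk (hDd x hx) (Or.inr rfl : Sgn (-1))
      exact ⟨y, Y, fun _ => ⟨h1, h2, h3⟩⟩
    · exact ⟨x, 0, fun h' => absurd h' hx⟩
  choose yp Yp hp using hgp
  choose ym Ym hm using hgm
  set Rp := (KK a v).filter (fun x => Rev a v (D x) (Yp x)) with hRp
  set Rm := (KK a v).filter (fun x => Rev a v (D x) (Ym x)) with hRm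
  have hRIp : ∀ x ∈ Rp, RI a v 1 (yp x) (Yp x) := by
    intro x hx
    obtain ⟨hxK, hrev⟩ := Finset.mem_filter.1 hx
    obtain ⟨g, hd, hs⟩ := hp x hxK
    exact RI.of_rev h g hd hs hrev
  have hRIm : ∀ x ∈ Rm, RI a v (-1) (ym x) (Ym x) := by
    intro x hx
    obtain ⟨hxK, hrev⟩ := Finset.mem_filter.1 hx
    obtain ⟨g, hd, hs⟩ := hm x hxK
    exact RI.of_rev h g hd hs hrev
  have injp : ∀ x1 ∈ KK a v, ∀ x2 ∈ KK a v, x1 ≠ x2 → yp x1 ≠ yp x2 := by
    intro x1 h1 x2 h2 hne heq
    obtain ⟨g1, d1, s1⟩ := hp x1 h1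
    obtain ⟨g2, d2, s2⟩ := hp x2 h2
    rw [← heq] at g2 d2
    exact hne (Gap.inj h g1 g2 d1 d2 (hDd x1 h1) (hDd x2 h2) s1 s2)
  have injm : ∀ x1 ∈ KK a v, ∀ x2 ∈ KK a v, x1 ≠ x2 → ym x1 ≠ ym x2 := by
    intro x1 h1 x2 h2 hne heq
    obtain ⟨g1, d1, s1⟩ := hm x1 h1
    obtain ⟨g2, d2, s2⟩ := hm x2 h2
    rw [← heq] at g2 d2
    exact hne (Gap.inj h g1 g2 d1 d2 (hDd x1 h1) (hDd x2 h2) s1 s2)
  have hRpK : ∀ x ∈ Rp, x ∈ KK a v := fun x hx => (Finset.mem_filter.1 hx).1
  have hRmK : ∀ x ∈ Rm, x ∈ KK a v := fun x hx => (Finset.mem_filter.1 hx).1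
  have hRp2 : Rp.card ≤ 2 := by
    by_contra hcon
    push Not at hcon
    obtain ⟨x1, h1, x2, h2, x3, h3, h12, h23, h13⟩ := Pool.Agent.helper50.Zono.exists_three hcon
    exact RI.three h hM (Or.inl rfl) (hRIp x1 h1) (hRIp x2 h2) (hRIp x3 h3)
      (injp x1 (hRpK x1 h1) x2 (hRpK x2 h2) h12) (injp x2 (hRpK x2 h2) x3 (hRpK x3 h3) h23)
      (injp x1 (hRpK x1 h1) x3 (hRpK x3 h3) h13)
  have hRm2 : Rm.card ≤ 2 := by
    by_contra hcon
    push Not at hcon
    obtain ⟨x1, h1, x2, h2, x3, h3, h12, h23, h13⟩ := Pool.Agent.helper50.Zono.exists_three hcon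
    exact RI.three h hM (Or.inr rfl) (hRIm x1 h1) (hRIm x2 h2) (hRIm x3 h3)
      (injm x1 (hRmK x1 h1) x2 (hRmK x2 h2) h12) (injm x2 (hRmK x2 h2) x3 (hRmK x3 h3) h23)
      (injm x1 (hRmK x1 h1) x3 (hRmK x3 h3) h13)
  have hsum : Rp.card + Rm.card ≤ 2 := by
    by_cases hRm0 : Rm = ∅
    · rw [hRm0, Finset.card_empty]; omega
    by_cases hRp0 : Rp = ∅
    · rw [hRp0, Finset.card_empty]; omega
    obtain ⟨l, hl⟩ := Finset.nonempty_iff_ne_empty.2 hRm0
    obtain ⟨r, hr⟩ := Finset.nonempty_iff_ne_empty.2 hRp0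
    have h1 : Rp.card ≤ 1 := by
      rw [Finset.card_le_one]
      intro x1 h1 x2 h2
      by_contra hne
      exact RI.lrr h hk hM (hRIm l hl) (hRIp x1 h1) (hRIp x2 h2)
        (injp x1 (hRpK x1 h1) x2 (hRpK x2 h2) hne)
    have h2 : Rm.card ≤ 1 := by
      rw [Finset.card_le_one]
      intro x1 h1 x2 h2
      by_contra hne
      exact RI.llr h hk hM (hRIp r hr) (hRIm x1 h1) (hRIm x2 h2)
        (injm x1 (hRmK x1 h1) x2 (hRmK x2 h2) hne)
    omega
  -- no plane is reversed on both sides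
  have hnot : ∀ x ∈ KK a v, x ∈ Rp → x ∈ Rm → False := by
    intro x hx h1 h2
    obtain ⟨g, d, s⟩ := hp x hx
    obtain ⟨g', d', s'⟩ := hm x hx
    have hrr := hRIp x h1
    have hrl := hRIm x h2
    by_cases hy : ym x = yp x
    · rw [hy] at hrl
      exact RI.sameLR h hk hM hrl hrr
    · have hne := hrl.dir.det_ne h hrr.dir hy
      have hrel := plane_rel (Z1 := D x) (Z2 := Yp x) (Z3 := Ym x) h.unit g.vX g.vY g'.vY
      have f1 := congrArg (fun w => ⟪a (yp x), w⟫) hrel
      simp only [inner_add_right, inner_smul_right, g.yY, mul_zero, add_zero] at f1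
      have q1 := g'.gap (yp x) g.hy
      have hge : 0 ≤ det3 v (Ym x) (Yp x) := by
        by_contra hneg
        push Not at hneg
        have e1 : det3 v (Ym x) (Yp x) * (⟪a (yp x), D x⟫ * ⟪a (yp x), D x⟫) =
            det3 v (D x) (Yp x) * (⟪a (yp x), D x⟫ * ⟪a (yp x), Ym x⟫) := by
          linear_combination (-⟪a (yp x), D x⟫) * f1
        have e2 := mul_neg_of_neg_of_pos hneg (mul_self_pos.2 g.yX)
        have e3 := mul_nonneg (by linarith : (0:ℝ) ≤ det3 v (D x) (Yp x)) q1
        linarith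
      have hpos : 0 < det3 v (Ym x) (Yp x) := lt_of_le_of_ne hge (Ne.symm hne)
      exact RI.coreLR h hM hrl hrr (hDd x hx) hpos
        (by rw [det3_v_swap v (D x) (Ym x)]; linarith) (by linarith)
  -- the count at each plane
  have hA : ∀ x ∈ KK a v, 8 ≤ tw a x +
      2 * (if x ∈ Rp then 1 else 0) + 2 * (if x ∈ Rm then 1 else 0) := by
    intro x hx
    obtain ⟨g, d, s⟩ := hp x hx
    obtain ⟨g', d', s'⟩ := hm x hx
    have hdis := NG_disjoint h hk g g' (hDd x hx) s s'
    have hsub : NG a v x (D x) (Yp x) ∪ NG a v x (D x) (Ym x) ⊆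
        (T3 a).filter (fun S => x ∈ walls a S) := by
      intro S hS
      rw [Finset.mem_union] at hS
      rcases hS with hS | hS
      · exact Finset.mem_filter.2 ⟨(mem_NG.1 hS).1, (mem_NG.1 hS).2.1⟩
      · exact Finset.mem_filter.2 ⟨(mem_NG.1 hS).1, (mem_NG.1 hS).2.1⟩
    have hcard := Finset.card_le_card hsub
    rw [Finset.card_union_of_disjoint hdis] at hcard
    have h1 : 4 ≤ (NG a v x (D x) (Yp x)).card + 2 * (if x ∈ Rp then 1 else 0) := by
      by_cases hr : x ∈ Rp
      · rw [if_pos hr]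
        have := g.two_le h hM
        omega
      · have := g.four_le h (fun h' => hr (Finset.mem_filter.2 ⟨hx, h'⟩))
        omega
    have h2 : 4 ≤ (NG a v x (D x) (Ym x)).card + 2 * (if x ∈ Rm then 1 else 0) := by
      by_cases hr : x ∈ Rm
      · rw [if_pos hr]
        have := g'.two_le h hM
        omega
      · have := g'.four_le h (fun h' => hr (Finset.mem_filter.2 ⟨hx, h'⟩))
        omega
    unfold tw
    omega
  refine ⟨?_, ?_⟩
  · have hsub : (KK a v).filter (fun x => tw a x < 8) ⊆ Rp ∪ Rm := by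
      intro x hx
      obtain ⟨hxK, hlt⟩ := Finset.mem_filter.1 hx
      rw [Finset.mem_union]
      by_contra hcon
      push Not at hcon
      have := hA x hxK
      rw [if_neg hcon.1, if_neg hcon.2] at this
      omega
    calc _ ≤ (Rp ∪ Rm).card := Finset.card_le_card hsub
      _ ≤ Rp.card + Rm.card := Finset.card_union_le _ _
      _ ≤ 2 := hsum
  · intro x hx
    have h1 := hA x hx
    by_cases hr : x ∈ Rp
    · by_cases hr' : x ∈ Rm
      · exact (hnot x hx hr hr').elim
      · rw [if_pos hr, if_neg hr'] at h1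
        omega
    · rw [if_neg hr] at h1
      split_ifs at h1 <;> omega

theorem tw_scale {a : ι → E3} {c : ι → ℝ} (hc : ∀ i, c i ≠ 0) (i : ι) :
    tw (fun i => c i • a i) i = tw a i := T3_filter_scale hc i

/-- At most two lines through a vertex bound fewer than four triangles, and all of them bound at
least three. -/
theorem few {a : ι → E3} (h : IsArr a) {q : Submodule ℝ E3} (hq : q ∈ planes a Finset.univ) :
    ((onq a q).filter (fun x => tw a x < 8)).card ≤ 2 ∧ ∀ x ∈ onq a q, 6 ≤ tw a x := by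
  classical
  obtain ⟨v, hvv, hv⟩ := exists_normal (finrank_planes h.indep hq)
  have hK := card_KK_eq_mult (a := a) hv
  have hM := h.mult_lt hq
  have hex : ∃ b, b ∉ KK a v := by
    by_contra hcon
    push Not at hcon
    have : KK a v = Finset.univ := by ext i; simp [hcon i]
    rw [this, Finset.card_univ] at hK
    omega
  have h1 := cen_few (cen_nrm h hvv) (by rw [KK_nrm, hK]; exact two_le_mult hq)
    (by rw [KK_nrm]; exact hex)
  rw [KK_nrm] at h1
  have h4 : KK a v = onq a q := by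
    ext i
    rw [mem_KK, mem_onq, hv]
  rw [h4] at h1
  simp only [tw_scale (nrm_ne a v)] at h1
  exact h1

/-- the lines with at least four triangles -/
noncomputable def big (a : ι → E3) : Finset ι := Finset.univ.filter (fun i => 8 ≤ tw a i)

theorem six_le {a : ι → E3} (h : IsArr a) (i : ι) : 6 ≤ tw a i := by
  classical
  have h3 := h.three_le
  obtain ⟨j, hj⟩ : ∃ j, j ≠ i := by
    by_contra hcon
    push Not at hcon
    have : Fintype.card ι ≤ 1 := Fintype.card_le_one_iff.2 fun p q => by rw [hcon p, hcon q]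
    omega
  have hq : pl a i j ∈ planes a Finset.univ :=
    mem_planes.2 ⟨i, Finset.mem_univ _, j, Finset.mem_univ _, Ne.symm hj, rfl⟩
  exact (few h hq).2 i (mem_onq.2 (mem_pl_left _ _ _))

theorem card_big {a : ι → E3} (h : IsArr a) :
    2 * (big a).card + 6 * Fintype.card ι ≤ 3 * tri a := by
  classical
  have h1 : ∑ i, (6 + if i ∈ big a then 2 else 0) ≤ ∑ i, tw a i := by
    refine Finset.sum_le_sum fun i _ => ?_
    by_cases hi : i ∈ big a
    · rw [if_pos hi]
      exact (Finset.mem_filter.1 hi).2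
    · rw [if_neg hi]
      exact six_le h i
  rw [sum_tw, Finset.sum_add_distrib, Finset.sum_const, Finset.card_univ, smul_eq_mul,
    Finset.sum_ite_mem, Finset.univ_inter, Finset.sum_const, smul_eq_mul] at h1
  omega

theorem mult_le_big {a : ι → E3} (h : IsArr a) {q : Submodule ℝ E3}
    (hq : q ∈ planes a Finset.univ) :
    mult a Finset.univ q ≤ ((onq a q).filter (fun i => i ∈ big a)).card + 2 := by
  classical
  have h1 := (few h hq).1
  have h2 := Finset.card_filter_add_card_filter_not (s := onq a q) (fun i => i ∈ big a)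
  rw [card_onq] at h2
  have h3 : (onq a q).filter (fun i => ¬ i ∈ big a) = (onq a q).filter (fun x => tw a x < 8) := by
    ext x
    rw [Finset.mem_filter, Finset.mem_filter, big, Finset.mem_filter]
    simp
  rw [h3] at h2
  omega

theorem sum_pairs {a : ι → E3} (h : IsArr a) :
    ∑ q ∈ planes a Finset.univ, (mult a Finset.univ q - 2) * (mult a Finset.univ q - 3) ≤
      (big a).card * ((big a).card - 1) := by
  classical
  have h1 : ∀ q ∈ planes a Finset.univ,
      (mult a Finset.univ q - 2) * (mult a Finset.univ q - 3) ≤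
        ((onq a q).filter (fun i => i ∈ big a)).offDiag.card := by
    intro q hq
    have h2 := mult_le_big h hq
    rw [Finset.offDiag_card]
    set B := ((onq a q).filter (fun i => i ∈ big a)).card with hB
    have e1 : B * B - B = B * (B - 1) := by rw [Nat.mul_sub, mul_one]
    rw [e1]
    exact Nat.mul_le_mul (by omega) (by omega)
  calc _ ≤ ∑ q ∈ planes a Finset.univ, ((onq a q).filter (fun i => i ∈ big a)).offDiag.card :=
        Finset.sum_le_sum h1
    _ = ((planes a Finset.univ).biUnion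
          (fun q => ((onq a q).filter (fun i => i ∈ big a)).offDiag)).card := by
        rw [Finset.card_biUnion]
        intro q hq q' hq' hne
        rw [Function.onFun, Finset.disjoint_left]
        rintro ⟨i, j⟩ hij hij'
        rw [Finset.mem_offDiag] at hij hij'
        obtain ⟨h1, h2, h3⟩ := hij
        obtain ⟨h1', h2', -⟩ := hij'
        obtain ⟨k, -, l, -, hkl, rfl⟩ := mem_planes.1 hq
        obtain ⟨k', -, l', -, hkl', rfl⟩ := mem_planes.1 hq'
        refine hne ?_
        rw [← pl_eq h.indep hkl h3 (mem_onq.1 (Finset.mem_filter.1 h1).1)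
          (mem_onq.1 (Finset.mem_filter.1 h2).1)]
        exact pl_eq h.indep hkl' h3 (mem_onq.1 (Finset.mem_filter.1 h1').1)
          (mem_onq.1 (Finset.mem_filter.1 h2').1)
    _ ≤ (big a).offDiag.card := by
        refine Finset.card_le_card ?_
        rintro ⟨i, j⟩ hij
        obtain ⟨q, -, hij⟩ := Finset.mem_biUnion.1 hij
        rw [Finset.mem_offDiag] at hij ⊢
        exact ⟨(Finset.mem_filter.1 hij.1).2, (Finset.mem_filter.1 hij.2.1).2, hij.2.2⟩
    _ = (big a).card * ((big a).card - 1) := by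
        rw [Finset.offDiag_card, Nat.mul_sub, mul_one]

end Pool.Agent.helper89.Zono
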