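import Pool.Agent.helper89.Zono.Final
import Pool.Agent.helper89.Zono.Tight

/-!
# Main theorem: exact values for about half of all `n`, two-sided bounds for all `n`
-/

open scoped RealInnerProductSpace

set_option linter.unusedSectionVars false

namespace Pool.Agent.helper89.Zono

open Pool.Agent.helper50.Zono

theorem c1_all : C1 := by
  intro N a h q hq
  rcases lt_or_ge 2 (mult a Finset.univ q) with h1 | h1
  · have := c1' h hq h1
    rw [Fintype.card_fin] at this
    exact this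
  · have h2 := levi h
    rw [Fintype.card_fin] at h2
    omega

/-- The lower bound for one arrangement: `2 D + 4 ≤ N + 9 g² - 2 g` with `tri = 2 (N + g)`. -/
theorem arr_lower {N : ℕ} {a : Fin N → E3} (h : IsArr a) :
    ∃ k, tri a = 2 * N + k ∧ 4 * sD a + 16 + 4 * k ≤ 9 * (k * k) + 4 * N := by
  classical
  have h1 := levi h
  rw [Fintype.card_fin] at h1
  obtain ⟨k, hk⟩ := Nat.exists_eq_add_of_le h1
  refine ⟨k, hk, ?_⟩
  have h2 := card_big h
  rw [Fintype.card_fin, hk] at h2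
  have h3 := sum_pairs h
  have h4 := euler_le h
  rw [hk] at h4
  have h5 : sD a = ∑ q ∈ planes a Finset.univ,
      (mult a Finset.univ q - 2) * (mult a Finset.univ q - 3) + 2 * sR a Finset.univ := by
    unfold sD sR
    rw [Finset.mul_sum, ← Finset.sum_add_distrib]
    refine Finset.sum_congr rfl fun q hq => ?_
    obtain ⟨r, hr⟩ : ∃ r, mult a Finset.univ q = r + 2 :=
      ⟨_, (Nat.sub_add_cancel (two_le_mult hq)).symm⟩
    rw [hr]
    rcases r with _ | r
    · simp
    · have e1 : r + 1 + 2 - 1 = r + 2 := by omega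
      have e2 : r + 1 + 2 - 2 = r + 1 := by omega
      have e3 : r + 1 + 2 - 3 = r := by omega
      rw [e1, e2, e3]; ring
  obtain ⟨B, hB⟩ : ∃ B, B = (big a).card := ⟨_, rfl⟩
  rw [← hB] at h2 h3
  have h6 : 4 * (B * (B - 1)) + 6 * k ≤ 9 * (k * k) := by
    rcases Nat.eq_zero_or_pos k with h0 | h0
    · have : B = 0 := by omega
      subst this; subst h0; simp
    · rcases B with _ | B
      · simp only [zero_mul, mul_zero, zero_add]
        nlinarith
      · have e1 : B + 1 - 1 = B := by omega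
        rw [e1]
        have e2 : 2 * (B + 1) ≤ 3 * k := by omega
        nlinarith
  omega

/-- The lower bound for all arrangements with `N (N - 1) + 2 - 2 D` cells. -/
theorem arr_lower' {N D N' : ℕ} {a : Fin N' → E3} (ha : IsArr a) (hD : D + 2 ≤ N)
    (hn : (topes a).card = N * (N - 1) + 2 - 2 * D) :
    ∃ k, tri a = 2 * N + k ∧ 8 * D + 16 + 4 * k ≤ 9 * (k * k) + 4 * N := by
  obtain ⟨k, hk, h1⟩ := arr_lower ha
  rcases cases_N ha hD hn with ⟨rfl, h⟩ | ⟨h2, h3⟩
  · exact ⟨k, hk, by omega⟩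
  · obtain ⟨d, rfl⟩ := Nat.exists_eq_add_of_le h2.le
    have hd : 1 ≤ d := by omega
    refine ⟨k + 2 * d, by omega, ?_⟩
    nlinarith [Nat.zero_le (k * d), Nat.zero_le (d * d), Nat.zero_le k]

theorem exists_min {n : ℕ} (hne : ∃ (N : ℕ) (a : Fin N → E3), IsArr a ∧ (topes a).card = n) :
    ∃ (N : ℕ) (a : Fin N → E3), IsArr a ∧ (topes a).card = n ∧ tri a = m n := by
  rw [m_eq]
  obtain ⟨N₀, a₀, ha₀, hn₀⟩ := hne
  have hne' : {k | ∃ (N : ℕ) (a : Fin N → E3), IsArr a ∧ (topes a).card = n ∧ tri a = k}.Nonempty :=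
    ⟨tri a₀, N₀, a₀, ha₀, hn₀, rfl⟩
  exact Nat.sInf_mem hne'

/-- **Two-sided bound.** -/
theorem two_sided {N D j : ℕ} (hj : 1 ≤ j) (h1 : j * (j + 1) ≤ 2 * D) (h2 : 2 * D + 4 ≤ N + j * j)
    (hD : D + 2 ≤ N) :
    ∃ k, m (N * (N - 1) + 2 - 2 * D) = 2 * N + k ∧ 2 ≤ k ∧ k ≤ 2 * j ∧
      8 * D + 16 + 4 * k ≤ 9 * (k * k) + 4 * N := by
  have hup := upper hj h1 h2
  obtain ⟨N', a, ha, hn, hm⟩ := exists_min (exists_arr hj h1 h2)
  obtain ⟨k, hk, h3⟩ := arr_lower' ha hD hn
  have hD1 : 1 ≤ D := by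
    by_contra h0
    have : D = 0 := by omega
    subst this
    have := Nat.mul_le_mul hj (Nat.succ_le_succ hj)
    simp at h1
    omega
  have h4 := lower_one c1_all ha hD1 hD hn
  exact ⟨k, by omega, by omega, by omega, h3⟩

/-- for `N ≥ 17` the least `j` is admissible -/
theorem least_ok {N D j : ℕ} (hN : 17 ≤ N) (hD1 : 1 ≤ D) (hD : D + 2 ≤ N)
    (hj : IsLeast {j | 1 ≤ j ∧ 2 * D + 4 ≤ N + j * j} j) :
    1 ≤ j ∧ j * (j + 1) ≤ 2 * D ∧ 2 * D + 4 ≤ N + j * j ∧ (j = 1 ∨ N + (j - 1) * (j - 1) < 2 * D + 4) := by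
  obtain ⟨⟨h1, h2⟩, hmin⟩ := hj
  refine ⟨h1, ?_, h2, ?_⟩
  · rcases Nat.eq_or_lt_of_le h1 with h3 | h3
    · subst h3; omega
    · obtain ⟨i, rfl⟩ : ∃ i, j = i + 1 := ⟨j - 1, by omega⟩
      have h4 : ¬ (2 * D + 4 ≤ N + i * i) := by
        intro h5
        have := hmin (show i ∈ {j | 1 ≤ j ∧ 2 * D + 4 ≤ N + j * j} from ⟨by omega, h5⟩)
        omega
      push Not at h4
      have h5 : i * i + 1 ≤ N := by nlinarith
      have h6 : 3 * i + 5 ≤ N := by
        by_contra h7
        push Not at h7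
        have h8 : i * i ≤ 3 * i + 3 := by omega
        have h9 : i ≤ 3 := by
          by_contra h10
          push Not at h10
          nlinarith
        interval_cases i <;> omega
      nlinarith
  · rcases Nat.eq_or_lt_of_le h1 with h3 | h3
    · left; exact h3.symm
    · right
      by_contra h4
      push Not at h4
      have := hmin (show j - 1 ∈ {j | 1 ≤ j ∧ 2 * D + 4 ≤ N + j * j} from ⟨by omega, h4⟩)
      omega

/-- the number of vertices is even -/
theorem even_of_nonempty {n : ℕ} (h : (ZClass n).Nonempty) : Even n := by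
  rw [zclass_nonempty_iff] at h
  obtain ⟨N, a, ha, rfl⟩ := h
  have h1 := card_topes_choose ha
  generalize (∑ q ∈ planes a Finset.univ, (mult a Finset.univ q - 1).choose 2) = x at h1
  generalize (1 + (Fintype.card (Fin N)).choose 2) = y at h1
  exact ⟨y - x, by omega⟩

/-- every even number is of the form `N (N - 1) + 2 - 2 D` with `D ≤ N - 2` -/
theorem exists_ND {n : ℕ} (hn : Even n) (h4 : 4 ≤ n) :
    ∃ N D, D + 2 ≤ N ∧ n = N * (N - 1) + 2 - 2 * D ∧ 2 * D ≤ N * (N - 1) + 2 := by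
  have hex : ∃ N, n ≤ N * (N - 1) + 2 := ⟨n + 1, by
    have : n + 1 - 1 = n := by omega
    rw [this]; nlinarith⟩
  classical
  obtain ⟨N, hN⟩ : ∃ N, N = Nat.find hex := ⟨_, rfl⟩
  have h1 : n ≤ N * (N - 1) + 2 := by rw [hN]; exact Nat.find_spec hex
  have hN2 : 2 ≤ N := by
    by_contra h
    have : N = 0 ∨ N = 1 := by omega
    rcases this with h0 | h0 <;> rw [h0] at h1 <;> omega
  obtain ⟨M, rfl⟩ : ∃ M, N = M + 2 := ⟨N - 2, by omega⟩
  have h2 : (M + 1) * M + 2 < n := by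
    have h3 := Nat.find_min hex (m := M + 1) (by omega)
    push Not at h3
    have e : M + 1 - 1 = M := by omega
    rw [e] at h3
    exact h3
  have e : M + 2 - 1 = M + 1 := by omega
  rw [e] at h1
  have e2 : (M + 2) * (M + 1) = (M + 1) * M + 2 * (M + 1) := by ring
  obtain ⟨s, hs⟩ := hn
  obtain ⟨t, ht⟩ : ∃ t, (M + 1) * M = 2 * t := by
    obtain ⟨t, ht⟩ := Nat.even_mul_succ_self M
    exact ⟨t, by rw [mul_comm, ht]; ring⟩
  refine ⟨M + 2, t + M + 2 - s, by omega, ?_, ?_⟩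
  · rw [e]; omega
  · rw [e]; omega

end Pool.Agent.helper89.Zono
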