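import Pool.Agent.helper89.Zono.Basic

/-!
# Adding a pair of lines near the line `d`
-/

open scoped RealInnerProductSpace

set_option linter.unusedSectionVars false

namespace Pool.Agent.helper89.Zono

open Pool.Agent.helper50.Zono

/-- the new vectors -/
noncomputable def vec (σ κ ε s : ℝ) : E3 := !₂[σ * ε, s * κ * ε, 1]

theorem vec0 (σ κ ε s : ℝ) : vec σ κ ε s 0 = σ * ε := by simp [vec]

theorem vec1 (σ κ ε s : ℝ) : vec σ κ ε s 1 = s * κ * ε := by simp [vec]

theorem vec2 (σ κ ε s : ℝ) : vec σ κ ε s 2 = 1 := by simp [vec]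

theorem ev_vec (σ κ ε s : ℝ) (x : E3) :
    ev (vec σ κ ε s) x = x 2 + ε * (σ * x 0 + s * κ * x 1) := by
  rw [ev, vec0, vec1, vec2]; ring

variable {ι : Type*}

/-- the conditions on the parameters -/
structure Par (a : ι → E3) (l d : ι) (σ κ ε : ℝ) : Prop where
  hσ : σ = 1 ∨ σ = -1
  hκ : 1 ≤ κ
  hε : 0 < ε
  hb : ∀ k, k ≠ l → k ≠ d → 2 * |a k 1| ≤ κ * |a k 0|
  hg : ∀ k, k ≠ l → k ≠ d → 2 * ε * |a k 2| ≤ |a k 0|
  thin : ∀ x, Gen a x → |x 2| < ε * (|x 0| + κ * |x 1|) → d ∈ Wl a x

variable {a : ι → E3} {l d : ι} {σ κ ε : ℝ}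

theorem Par.sq (P : Par a l d σ κ ε) : σ * σ = 1 := by
  rcases P.hσ with h | h <;> rw [h] <;> norm_num

/-- the sign of a vector at a point close to `p = (σ, 0, 0)` -/
theorem cone_aux {w : E3} (hσ : σ * σ = 1) (hκ : 0 < κ) (_hε : 0 < ε) (hw : w 0 ≠ 0)
    (hb : 2 * |w 1| ≤ κ * |w 0|) (hg : 2 * ε * |w 2| ≤ |w 0|) {x : E3} {t : ℝ}
    (ht : t = σ * x 0) (h1 : κ * |x 1| < t) (h2 : |x 2| < ε * t) :
    0 < σ * w 0 * ev w x := by
  have htp : 0 < t := lt_of_le_of_lt (by positivity) h1
  have hw0 : 0 < |w 0| := abs_pos.2 hw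
  have e1 : |w 1 * x 1| * κ < |w 0| * t / 2 * κ := by
    rw [abs_mul]
    have : 2 * |w 1| * (κ * |x 1|) ≤ κ * |w 0| * (κ * |x 1|) :=
      mul_le_mul_of_nonneg_right hb (by positivity)
    have h3 : κ * |w 0| * (κ * |x 1|) < κ * |w 0| * t :=
      mul_lt_mul_of_pos_left h1 (by positivity)
    nlinarith
  have e1' : |w 1 * x 1| < |w 0| * t / 2 := lt_of_mul_lt_mul_right e1 hκ.le
  have e2 : |w 2 * x 2| ≤ |w 0| * t / 2 := by
    rw [abs_mul]
    have h3 : |w 2| * |x 2| ≤ |w 2| * (ε * t) := mul_le_mul_of_nonneg_left h2.le (abs_nonneg _)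
    have h4 : 2 * ε * |w 2| * t ≤ |w 0| * t := mul_le_mul_of_nonneg_right hg htp.le
    nlinarith
  have e3 : |w 1 * x 1 + w 2 * x 2| < |w 0| * t :=
    lt_of_le_of_lt (abs_add_le _ _) (by linarith)
  have e4 : |σ * w 0 * (w 1 * x 1 + w 2 * x 2)| < |w 0| * (|w 0| * t) := by
    rw [abs_mul, abs_mul]
    have hs : |σ| = 1 := by
      have : |σ| * |σ| = 1 := by rw [← abs_mul, hσ, abs_one]
      nlinarith [abs_nonneg σ]
    rw [hs, one_mul]
    exact mul_lt_mul_of_pos_left e3 hw0
  have e5 : |w 0| * |w 0| = w 0 * w 0 := abs_mul_abs_self _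
  have e6 : σ * w 0 * ev w x = w 0 * w 0 * t + σ * w 0 * (w 1 * x 1 + w 2 * x 2) := by
    rw [ev, ht]; ring
  rw [e6]
  have e7 := neg_abs_le (σ * w 0 * (w 1 * x 1 + w 2 * x 2))
  have e8 : |w 0| * (|w 0| * t) = w 0 * w 0 * t := by rw [← mul_assoc, e5]
  linarith

/-- `x` has the signs of `p` -/
def Sp (a : ι → E3) (l d : ι) (σ : ℝ) (x : E3) : Prop :=
  ∀ k, k ≠ l → k ≠ d → 0 < σ * a k 0 * ev (a k) x

theorem Par.cone (P : Par a l d σ κ ε) (h : Inv a l d) {x : E3} (hz : x 2 < 0)
    (h1 : - x 2 < ε * (σ * x 0 - κ * |x 1|)) : Sp a l d σ x := by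
  intro k hkl hkd
  have hκ : 0 < κ := lt_of_lt_of_le one_pos P.hκ
  have h2 : 0 < ε * (σ * x 0 - κ * |x 1|) := by linarith
  have h3 : 0 < σ * x 0 - κ * |x 1| := (mul_pos_iff_of_pos_left P.hε).1 h2
  refine cone_aux P.sq hκ P.hε (h.alpha hkl hkd) (P.hb k hkl hkd) (P.hg k hkl hkd) rfl
    (by linarith) ?_
  rw [abs_of_neg hz]
  have : 0 ≤ ε * (κ * |x 1|) := by have := P.hε; positivity
  linarith

/-- sign of a boolean -/
noncomputable def sgn (b : Bool) : ℝ := if b then 1 else -1

theorem sgn_true : sgn true = 1 := rfl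

theorem sgn_false : sgn false = -1 := rfl

theorem sgn_not (b : Bool) : sgn (!b) = - sgn b := by cases b <;> simp [sgn]

theorem sgn_sq (b : Bool) : sgn b * sgn b = 1 := by cases b <;> simp [sgn]

/-- the new arrangement -/
noncomputable def trip (a : ι → E3) (σ κ ε : ℝ) : ι ⊕ Bool → E3 :=
  Sum.elim a (fun b => vec σ κ ε (sgn b))

theorem Par.cone2 (P : Par a l d σ κ ε) (h : Inv a l d) {x : E3} (hz : x 2 < 0)
    (h1 : ∀ b, 0 < ev (trip a σ κ ε (Sum.inr b)) x) : Sp a l d σ x := by
  refine P.cone h hz ?_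
  have ht := h1 true
  have hf := h1 false
  rw [trip, Sum.elim_inr, ev_vec, sgn_true] at ht
  rw [trip, Sum.elim_inr, ev_vec, sgn_false] at hf
  rcases abs_cases (x 1) with ⟨h2, -⟩ | ⟨h2, -⟩ <;> rw [h2] <;> nlinarith

theorem Sp.neg_iff {x : E3} : Sp a l d σ (-x) ↔ Sp a l d (-σ) x := by
  unfold Sp
  constructor
  · intro h k h1 h2
    have := h k h1 h2
    rw [ev_neg] at this
    linarith
  · intro h k h1 h2
    have := h k h1 h2
    rw [ev_neg]
    linarith

theorem Sp.mul_pos {x y : E3} (hx : Sp a l d σ x) (hy : Sp a l d σ y) {k : ι} (h1 : k ≠ l)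
    (h2 : k ≠ d) : 0 < ev (a k) x * ev (a k) y := by
  have e1 := hx k h1 h2
  rw [mul_comm] at e1
  exact pos_trans e1 (hy k h1 h2)

theorem Sp.congr {x y : E3} (hx : Sp a l d σ x)
    (h : ∀ k, k ≠ l → k ≠ d → 0 < ev (a k) x * ev (a k) y) : Sp a l d σ y := fun k h1 h2 =>
  pos_trans (hx k h1 h2) (h k h1 h2)

theorem gen_trip {x : E3} (h : Gen (trip a σ κ ε) x) : Gen a x := fun i => h (Sum.inl i)

theorem flip_inl {i : ι} {x y : E3} (h : Flip (trip a σ κ ε) (Sum.inl i) x y) : Flip a i x y :=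
  ⟨h.1, fun j hj => h.2 (Sum.inl j) (by simpa using hj)⟩

theorem flip_inl_inr {i : ι} {x y : E3} (h : Flip (trip a σ κ ε) (Sum.inl i) x y) (b : Bool) :
    0 < ev (trip a σ κ ε (Sum.inr b)) x * ev (trip a σ κ ε (Sum.inr b)) y :=
  h.2 (Sum.inr b) (by simp)

theorem flip_inr {b : Bool} {x y : E3} (h : Flip (trip a σ κ ε) (Sum.inr b) x y) : Same a x y :=
  fun j => h.2 (Sum.inl j) (by simp)

theorem Par.thin_of (P : Par a l d σ κ ε) {x : E3} (hg : Gen a x) {b : Bool}
    (h : x 2 * ev (trip a σ κ ε (Sum.inr b)) x < 0) : d ∈ Wl a x := by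
  refine P.thin x hg ?_
  rw [trip, Sum.elim_inr, ev_vec] at h
  have hε := P.hε
  have hκ : 0 < κ := lt_of_lt_of_le one_pos P.hκ
  have hs : |σ| = 1 := by rcases P.hσ with h | h <;> rw [h] <;> norm_num
  have hb : |sgn b| = 1 := by cases b <;> simp [sgn]
  have h1 : |σ * x 0 + sgn b * κ * x 1| ≤ |x 0| + κ * |x 1| := by
    refine (abs_add_le _ _).trans (le_of_eq ?_)
    rw [abs_mul, abs_mul, abs_mul, hs, hb, abs_of_pos hκ]; ring
  refine lt_of_lt_of_le ?_ (mul_le_mul_of_nonneg_left h1 hε.le)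
  set f := σ * x 0 + sgn b * κ * x 1
  have h2 : ε * |f| = |ε * f| := by rw [abs_mul, abs_of_pos hε]
  rw [h2]
  rcases lt_trichotomy (x 2) 0 with h3 | h3 | h3
  · rw [abs_of_neg h3]
    have : 0 < x 2 + ε * f := by
      by_contra h4
      push Not at h4
      nlinarith
    exact lt_of_lt_of_le (by linarith) (le_abs_self _)
  · rw [h3, zero_mul] at h; exact absurd h (lt_irrefl _)
  · rw [abs_of_pos h3]
    have : x 2 + ε * f < 0 := by
      by_contra h4
      push Not at h4
      nlinarith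
    exact lt_of_lt_of_le (by linarith) (neg_le_abs _)

/-- different signs at the two new planes -/
theorem Par.diff (P : Par a l d σ κ ε) {x : E3} {b : Bool}
    (h1 : 0 < ev (trip a σ κ ε (Sum.inr b)) x) (h2 : ev (trip a σ κ ε (Sum.inr (!b))) x < 0) :
    0 < sgn b * x 1 := by
  rw [trip, Sum.elim_inr, ev_vec] at h1 h2
  rw [sgn_not] at h2
  have hκ : 0 < κ := lt_of_lt_of_le one_pos P.hκ
  have hε := P.hε
  have h3 : 0 < (κ * ε) * (sgn b * x 1) := by nlinarith
  exact (mul_pos_iff_of_pos_left (by positivity)).1 h3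

/-- all arrangement conditions for the walls -/
def Des (a : ι → E3) (l d : ι) (σ s : ℝ) : Prop :=
  ∀ x, Gen a x → Sp a l d σ x → 0 < s * x 1 → 0 < x 2 → (Wl a x).ncard ≤ 3

/-- all cells have at most four walls -/
def Four (a : ι → E3) : Prop := ∀ x, Gen a x → (Wl a x).ncard ≤ 4

theorem ncard_three {α : Type*} {s : Set α} {a b c : α} (h : s ⊆ {a, b, c}) : s.ncard ≤ 3 := by
  refine (Set.ncard_le_ncard h (Set.toFinite _)).trans ?_
  refine (Set.ncard_insert_le _ _).trans ?_
  have := Set.ncard_insert_le b {c}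
  rw [Set.ncard_singleton] at this
  omega

theorem eq_or_not (b b' : Bool) : b' = b ∨ b' = !b := by cases b <;> cases b' <;> simp

/-- both new planes on the negative side -/
theorem Par.caseD (P : Par a l d σ κ ε) (h : Inv a l d) {x : E3} (hx : Gen (trip a σ κ ε) x)
    (hz : 0 < x 2) (hv : ∀ b, ev (trip a σ κ ε (Sum.inr b)) x < 0) :
    (Wl (trip a σ κ ε) x).ncard ≤ 3 := by
  have hcone : ∀ y : E3, 0 < y 2 → (∀ b, ev (trip a σ κ ε (Sum.inr b)) y < 0) →
      Sp a l d (-σ) y := by
    intro y hy hb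
    rw [← Sp.neg_iff]
    refine P.cone2 h ?_ fun b => ?_
    · rw [PiLp.neg_apply]; linarith
    · rw [ev_neg]; have := hb b; linarith
  have hy1 : x 1 ≠ 0 := by
    have := gen_trip hx l
    rwa [h.ev_l] at this
  obtain ⟨b0, hb0⟩ : ∃ b0 : Bool, 0 < sgn b0 * x 1 := by
    rcases lt_or_gt_of_ne hy1 with h1 | h1
    · exact ⟨false, by rw [sgn_false]; linarith⟩
    · exact ⟨true, by rw [sgn_true]; linarith⟩
  refine ncard_three (a := Sum.inl l) (b := Sum.inl d) (c := Sum.inr b0) ?_
  rintro (k | b) ⟨y, hy⟩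
  · by_cases hkl : k = l
    · left; rw [hkl]
    by_cases hkd : k = d
    · right; left; rw [hkd]
    exfalso
    have hf := flip_inl hy
    have hyz : 0 < y 2 := by
      have := hf.2 d (Ne.symm hkd)
      rw [h.ev_d, h.ev_d] at this
      exact (mul_pos_iff_of_pos_left hz).1 this
    have hyv : ∀ b, ev (trip a σ κ ε (Sum.inr b)) y < 0 := by
      intro b
      have := flip_inl_inr hy b
      by_contra h4
      push Not at h4
      have h5 := hv b
      nlinarith
    have := (hcone x hz hv).mul_pos (hcone y hyz hyv) hkl hkd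
    have h6 := hf.1
    linarith
  · right; right
    rw [Set.mem_singleton_iff]
    have hs := flip_inr hy
    have h1 : 0 < ev (trip a σ κ ε (Sum.inr b)) y := by
      have := hy.1
      by_contra h4
      push Not at h4
      have h5 := hv b
      nlinarith
    have h2 : ev (trip a σ κ ε (Sum.inr (!b))) y < 0 := by
      have := hy.2 (Sum.inr (!b)) (by simp)
      by_contra h4
      push Not at h4
      have h5 := hv (!b)
      nlinarith
    have h3 := P.diff h1 h2
    have h4 := hs l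
    rw [h.ev_l, h.ev_l] at h4
    have h5 : 0 < sgn b * x 1 := pos_trans h3 (by rw [mul_comm]; exact h4)
    rcases eq_or_not b0 b with h6 | h6
    · rw [h6]
    · exfalso
      rw [h6, sgn_not] at h5
      linarith

/-- the point used in `caseB` -/
theorem Par.nbr (P : Par a l d σ κ ε) (h : Inv a l d) {x : E3} (hx : Sp a l d (-σ) x)
    (hz : 0 < x 2) {s : ℝ} (hs : s * s = 1) (hy : 0 < s * x 1) : l ∈ Th a d x := by
  have hκ : 0 < κ := lt_of_lt_of_le one_pos P.hκ
  have hε := P.hε
  have hs1 : |s| = 1 := by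
    have : |s| * |s| = 1 := by rw [← abs_mul, hs, abs_one]
    nlinarith [abs_nonneg s]
  set y : E3 := !₂[-σ, -(s / (2 * κ)), ε / 2] with hyd
  have y0 : y 0 = -σ := by simp [hyd]
  have y1 : y 1 = -(s / (2 * κ)) := by simp [hyd]
  have y2 : y 2 = ε / 2 := by simp [hyd]
  have hsy : Sp a l d (-σ) y := by
    intro k hkl hkd
    refine cone_aux (κ := κ) (ε := ε) (by rw [neg_mul_neg]; exact P.sq) hκ hε
      (h.alpha hkl hkd) (P.hb k hkl hkd) (P.hg k hkl hkd) (t := 1) ?_ ?_ ?_
    · rw [y0, neg_mul_neg, P.sq]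
    · rw [y1, abs_neg, abs_div, hs1, abs_of_pos (by positivity : 0 < 2 * κ)]
      have : κ * (1 / (2 * κ)) = 1 / 2 := by field_simp
      rw [this]; norm_num
    · rw [y2, abs_of_pos (by positivity)]; linarith
  have hflip : Flip a l x y := by
    constructor
    · rw [h.ev_l, h.ev_l, y1]
      have h1 : x 1 * -(s / (2 * κ)) = -((s * x 1) / (2 * κ)) := by ring
      rw [h1]
      have : 0 < (s * x 1) / (2 * κ) := by positivity
      linarith
    · intro j hj
      by_cases hjd : j = d
      · rw [hjd, h.ev_d, h.ev_d, y2]; positivity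
      · exact hx.mul_pos hsy hj hjd
  refine ⟨h.ld, y, hflip, P.thin y hflip.gen ?_⟩
  rw [y2, abs_of_pos (by positivity), y0, y1, abs_neg]
  have hσ : |σ| = 1 := by rcases P.hσ with h | h <;> rw [h] <;> norm_num
  rw [hσ]
  have : 0 ≤ ε * (κ * |-(s / (2 * κ))|) := by positivity
  linarith

/-- the two new planes on different sides -/
theorem Par.caseB [Finite ι] (P : Par a l d σ κ ε) (h : Inv a l d) {x : E3}
    (hx : Gen (trip a σ κ ε) x)
    (hz : 0 < x 2) {b : Bool} (h1 : 0 < ev (trip a σ κ ε (Sum.inr b)) x)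
    (h2 : ev (trip a σ κ ε (Sum.inr (!b))) x < 0) :
    (Wl (trip a σ κ ε) x).ncard ≤ 4 := by
  have hga := gen_trip hx
  have hY := P.diff h1 h2
  have hd : d ∈ Wl a x := P.thin_of hga (b := !b) (mul_neg_of_pos_of_neg hz h2)
  have hcard := h.card_Th hd
  -- walls with old index
  have hold : ∀ k, Sum.inl k ∈ Wl (trip a σ κ ε) x → k ≠ d → k ≠ l ∧ k ∈ Th a d x := by
    rintro k ⟨y, hy⟩ hkd
    have hf := flip_inl hy
    have hyz : 0 < y 2 := by
      have := hf.2 d (Ne.symm hkd)
      rw [h.ev_d, h.ev_d] at this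
      exact (mul_pos_iff_of_pos_left hz).1 this
    have g1 : 0 < ev (trip a σ κ ε (Sum.inr b)) y :=
      (mul_pos_iff_of_pos_left h1).1 (flip_inl_inr hy b)
    have g2 : ev (trip a σ κ ε (Sum.inr (!b))) y < 0 := by
      have := flip_inl_inr hy (!b)
      by_contra h4
      push Not at h4
      nlinarith
    refine ⟨?_, hkd, y, hf, P.thin_of hf.gen (b := !b) (mul_neg_of_pos_of_neg hyz g2)⟩
    rintro rfl
    have h3 := P.diff g1 g2
    have h4 := hf.1
    rw [h.ev_l, h.ev_l] at h4
    have h5 := neg_trans (by linarith : sgn b * (-x 1) < 0)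
      (by linarith : 0 < (-x 1) * y 1)
    linarith
  by_cases hb : Sum.inr b ∈ Wl (trip a σ κ ε) x
  · obtain ⟨y, hy⟩ := hb
    have hs := flip_inr hy
    have hyz : 0 < y 2 := by
      have := hs d
      rw [h.ev_d, h.ev_d] at this
      exact (mul_pos_iff_of_pos_left hz).1 this
    have g1 : ev (trip a σ κ ε (Sum.inr b)) y < 0 := by
      have := hy.1
      by_contra h4
      push Not at h4
      nlinarith
    have g2 : ev (trip a σ κ ε (Sum.inr (!b))) y < 0 := by
      have := hy.2 (Sum.inr (!b)) (by simp)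
      by_contra h4
      push Not at h4
      nlinarith
    have hsp : Sp a l d (-σ) y := by
      rw [← Sp.neg_iff]
      refine P.cone2 h ?_ fun b' => ?_
      · rw [PiLp.neg_apply]; linarith
      · rw [ev_neg]
        rcases eq_or_not b b' with h6 | h6 <;> rw [h6] <;> linarith
    have hspx : Sp a l d (-σ) x := hsp.congr fun k _ _ => by rw [mul_comm]; exact hs k
    have hl : l ∈ Th a d x := P.nbr h hspx hz (sgn_sq b) hY
    have hsub : Wl (trip a σ κ ε) x ⊆
        Sum.inl '' (Th a d x \ {l}) ∪ {Sum.inl d, Sum.inr true, Sum.inr false} := by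
      rintro (k | b') hk
      · by_cases hkd : k = d
        · right; rw [hkd]; simp
        · left
          obtain ⟨h5, h6⟩ := hold k hk hkd
          exact ⟨k, ⟨h6, h5⟩, rfl⟩
      · right; cases b' <;> simp
    refine (Set.ncard_le_ncard hsub (Set.toFinite _)).trans ?_
    refine (Set.ncard_union_le _ _).trans ?_
    rw [Set.ncard_image_of_injective _ Sum.inl_injective]
    have e1 := Set.ncard_sdiff_singleton_add_one hl (Set.toFinite _)
    have e2 : ({Sum.inl d, Sum.inr true, Sum.inr false} : Set (ι ⊕ Bool)).ncard ≤ 3 :=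
      ncard_three subset_rfl
    omega
  · have hsub : Wl (trip a σ κ ε) x ⊆
        Sum.inl '' (Th a d x) ∪ {Sum.inl d, Sum.inr (!b)} := by
      rintro (k | b') hk
      · by_cases hkd : k = d
        · right; rw [hkd]; simp
        · left
          obtain ⟨h5, h6⟩ := hold k hk hkd
          exact ⟨k, h6, rfl⟩
      · right
        rcases eq_or_not b b' with h6 | h6
        · rw [h6] at hk; exact absurd hk hb
        · rw [h6]; simp
    refine (Set.ncard_le_ncard hsub (Set.toFinite _)).trans ?_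
    refine (Set.ncard_union_le _ _).trans ?_
    rw [Set.ncard_image_of_injective _ Sum.inl_injective]
    have e2 := Set.ncard_insert_le (Sum.inl d) ({Sum.inr (!b)} : Set (ι ⊕ Bool))
    rw [Set.ncard_singleton] at e2
    omega

/-- both new planes on the positive side -/
theorem Par.caseA [Finite ι] (P : Par a l d σ κ ε) (h : Inv a l d) (hF : Four a)
    (hD : ∀ s, (s = 1 ∨ s = -1) → Des a l d σ s) {x : E3}
    (hx : Gen (trip a σ κ ε) x)
    (hz : 0 < x 2) (hv : ∀ b, 0 < ev (trip a σ κ ε (Sum.inr b)) x) :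
    (Wl (trip a σ κ ε) x).ncard ≤ 4 := by
  have hga := gen_trip hx
  have h4 := hF x hga
  have hold : ∀ k, Sum.inl k ∈ Wl (trip a σ κ ε) x → k ∈ Wl a x := by
    rintro k ⟨y, hy⟩
    exact ⟨y, flip_inl hy⟩
  by_cases hex : ∃ b, Sum.inr b ∈ Wl (trip a σ κ ε) x
  · -- sign of `Y` and thinness
    have hb : ∀ b, Sum.inr b ∈ Wl (trip a σ κ ε) x → 0 < sgn (!b) * x 1 ∧ d ∈ Wl a x := by
      rintro b ⟨y, hy⟩
      have hs := flip_inr hy
      have hyz : 0 < y 2 := by
        have := hs d
        rw [h.ev_d, h.ev_d] at this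
        exact (mul_pos_iff_of_pos_left hz).1 this
      have g1 : ev (trip a σ κ ε (Sum.inr b)) y < 0 := by
        have := hy.1
        have := hv b
        by_contra h4
        push Not at h4
        nlinarith
      have g2 : 0 < ev (trip a σ κ ε (Sum.inr (!b))) y :=
        (mul_pos_iff_of_pos_left (hv _)).1 (hy.2 (Sum.inr (!b)) (by simp))
      have g3 := P.diff (b := !b) g2 (by rw [Bool.not_not]; exact g1)
      have g4 := hs l
      rw [h.ev_l, h.ev_l] at g4
      refine ⟨pos_trans g3 (by rw [mul_comm]; exact g4), ?_⟩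
      rw [Wl_congr hs]
      exact P.thin_of hs.gen (b := b) (mul_neg_of_pos_of_neg hyz g1)
    obtain ⟨b, hbm⟩ := hex
    obtain ⟨hY, hd⟩ := hb b hbm
    have honly : ∀ b', Sum.inr b' ∈ Wl (trip a σ κ ε) x → b' = b := by
      intro b' hb'
      obtain ⟨hY', -⟩ := hb b' hb'
      rcases eq_or_not b b' with h6 | h6
      · exact h6
      · rw [h6, Bool.not_not] at hY'
        rw [sgn_not] at hY
        linarith
    by_cases hdm : Sum.inl d ∈ Wl (trip a σ κ ε) x
    · obtain ⟨z, hzf⟩ := hdm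
      have hf := flip_inl hzf
      have hzz : z 2 < 0 := by
        have := hf.1
        rw [h.ev_d, h.ev_d] at this
        by_contra h4
        push Not at h4
        nlinarith
      have hzv : ∀ b, 0 < ev (trip a σ κ ε (Sum.inr b)) z := fun b =>
        (mul_pos_iff_of_pos_left (hv b)).1 (flip_inl_inr hzf b)
      have hsp : Sp a l d σ x := (P.cone2 h hzz hzv).congr fun k _ h2 => by
        rw [mul_comm]; exact hf.2 k h2
      have h3 : (Wl a x).ncard ≤ 3 := by
        refine hD (sgn (!b)) ?_ x hga hsp hY hz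
        cases b <;> simp [sgn]
      have hsub : Wl (trip a σ κ ε) x ⊆ Sum.inl '' (Wl a x) ∪ {Sum.inr b} := by
        rintro (k | b') hk
        · left; exact ⟨k, hold k hk, rfl⟩
        · right; rw [honly b' hk]; rfl
      refine (Set.ncard_le_ncard hsub (Set.toFinite _)).trans ?_
      refine (Set.ncard_union_le _ _).trans ?_
      rw [Set.ncard_image_of_injective _ Sum.inl_injective, Set.ncard_singleton]
      omega
    · have hsub : Wl (trip a σ κ ε) x ⊆ Sum.inl '' (Wl a x \ {d}) ∪ {Sum.inr b} := by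
        rintro (k | b') hk
        · left
          refine ⟨k, ⟨hold k hk, ?_⟩, rfl⟩
          rintro rfl
          exact hdm hk
        · right; rw [honly b' hk]; rfl
      refine (Set.ncard_le_ncard hsub (Set.toFinite _)).trans ?_
      refine (Set.ncard_union_le _ _).trans ?_
      rw [Set.ncard_image_of_injective _ Sum.inl_injective, Set.ncard_singleton]
      have e1 := Set.ncard_sdiff_singleton_add_one hd (Set.toFinite _)
      omega
  · have hsub : Wl (trip a σ κ ε) x ⊆ Sum.inl '' (Wl a x) := by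
      rintro (k | b') hk
      · exact ⟨k, hold k hk, rfl⟩
      · exact absurd ⟨b', hk⟩ hex
    refine (Set.ncard_le_ncard hsub (Set.toFinite _)).trans ?_
    rw [Set.ncard_image_of_injective _ Sum.inl_injective]
    omega

theorem Par.four [Finite ι] (P : Par a l d σ κ ε) (h : Inv a l d) (hF : Four a)
    (hD : ∀ s, (s = 1 ∨ s = -1) → Des a l d σ s) : Four (trip a σ κ ε) := by
  have main : ∀ x, Gen (trip a σ κ ε) x → 0 < x 2 → (Wl (trip a σ κ ε) x).ncard ≤ 4 := by
    intro x hx hz
    have ht := hx (Sum.inr true)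
    have hf := hx (Sum.inr false)
    rcases lt_or_gt_of_ne ht with ht | ht <;> rcases lt_or_gt_of_ne hf with hf | hf
    · refine (P.caseD h hx hz ?_).trans (by norm_num)
      intro b; cases b
      · exact hf
      · exact ht
    · exact P.caseB h hx hz (b := false) hf ht
    · exact P.caseB h hx hz (b := true) ht hf
    · refine P.caseA h hF hD hx hz ?_
      intro b; cases b
      · exact hf
      · exact ht
  intro x hx
  have hz := hx (Sum.inl d)
  have hz' : x 2 ≠ 0 := by
    rw [← h.ev_d]; exact hz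
  rcases lt_or_gt_of_ne hz' with hz | hz
  · rw [← Wl_neg]
    exact main (-x) hx.neg (by rw [PiLp.neg_apply]; linarith)
  · exact main x hx hz

theorem Par.des [Finite ι] (P : Par a l d σ κ ε) (h : Inv a l d) (s : ℝ) :
    Des (trip a σ κ ε) (Sum.inl l) (Sum.inl d) (-σ) s := by
  intro x hx hsp _ hz
  refine P.caseD h hx hz fun b => ?_
  have := hsp (Sum.inr b) (by simp) (by simp)
  have h0 : trip a σ κ ε (Sum.inr b) 0 = σ * ε := by rw [trip, Sum.elim_inr, vec0]
  rw [h0] at this
  have h1 : -σ * (σ * ε) = -ε := by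
    have := P.sq
    linear_combination (-ε) * this
  rw [h1] at this
  by_contra h4
  push Not at h4
  have hε := P.hε
  nlinarith

theorem Par.inv (P : Par a l d σ κ ε) (h : Inv a l d) :
    Inv (trip a σ κ ε) (Sum.inl l) (Sum.inl d) := by
  have hκ : 0 < κ := lt_of_lt_of_le one_pos P.hκ
  have hε := P.hε
  have hσ0 : σ ≠ 0 := by rintro rfl; have := P.sq; simp at this
  have hon : ∀ k (b : Bool), k ≠ d →
      a k 0 * (sgn b * κ * ε) - a k 1 * (σ * ε) ≠ 0 := by
    intro k b hkd
    by_cases hkl : k = l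
    · rw [hkl, h.l0, h.l1]
      simp only [zero_mul, one_mul, zero_sub]
      exact neg_ne_zero.2 (mul_ne_zero hσ0 hε.ne')
    · intro h0
      have h1 : ε * (a k 0 * (sgn b * κ) - a k 1 * σ) = 0 := by linear_combination h0
      have h2 := (mul_eq_zero.1 h1).resolve_left hε.ne'
      have h3 : |a k 1| = κ * |a k 0| := by
        have hs : |σ| = 1 := by rcases P.hσ with h | h <;> rw [h] <;> norm_num
        have hb : |sgn b| = 1 := by cases b <;> simp [sgn]
        have : |a k 0 * (sgn b * κ)| = |a k 1 * σ| := by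
          rw [show a k 0 * (sgn b * κ) = a k 1 * σ by linarith]
        rw [abs_mul, abs_mul, abs_mul, hs, hb, abs_of_pos hκ] at this
        linarith
      have h4 := P.hb k hkl hkd
      have h5 := abs_pos.2 (h.alpha hkl hkd)
      have h6 := mul_pos hκ h5
      linarith
  refine ⟨by simpa using h.ld, h.l0, h.l1, h.l2, h.d0, h.d1, h.d2, ?_, ?_⟩
  · rintro (i | b) (j | b') hi hj hij
    · exact h.minor i j (by simpa using hi) (by simpa using hj) (by simpa using hij)
    · simp only [trip, Sum.elim_inl, Sum.elim_inr, vec0, vec1]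
      exact hon i b' (by simpa using hi)
    · simp only [trip, Sum.elim_inl, Sum.elim_inr, vec0, vec1]
      have := hon j b (by simpa using hj)
      intro h0
      apply this
      linear_combination -h0
    · simp only [trip, Sum.elim_inr, vec0, vec1]
      have hb : b' = !b := by
        rcases eq_or_not b b' with h6 | h6
        · exact absurd (by rw [h6]) hij
        · exact h6
      rw [hb, sgn_not]
      have h1 : σ * ε * (-sgn b * κ * ε) - sgn b * κ * ε * (σ * ε) =
        (-2 * σ) * (sgn b) * (κ * ε * ε) := by ring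
      rw [h1]
      have hb0 : sgn b ≠ 0 := by cases b <;> simp [sgn]
      exact mul_ne_zero (mul_ne_zero (mul_ne_zero (by norm_num) hσ0) hb0) (by positivity)
  · obtain ⟨i, h1, h2⟩ := h.ex
    exact ⟨Sum.inl i, by simpa using h1, by simpa using h2⟩

end Pool.Agent.helper89.Zono
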